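import Mathlib

/-!
Elementary definitions: smooth manifolds presented as regular level sets of smooth maps between
finite dimensional vector spaces, Riemannian metrics on them, geodesics, absence of conjugate
points, products with the circle and with the line, isometries.
-/

namespace Pool.Agent.H847R2.Shear

open scoped ContDiff

variable {V W V' W' : Type*}
  [NormedAddCommGroup V] [NormedSpace ℝ V] [NormedAddCommGroup W] [NormedSpace ℝ W]
  [NormedAddCommGroup V'] [NormedSpace ℝ V'] [NormedAddCommGroup W'] [NormedSpace ℝ W']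

/-- `F` is smooth and `0` is a regular value of `F`, so that `{p | F p = 0}` is a properly embedded
smooth submanifold of `V` of dimension `dim V - dim W`, whose tangent space at `p` is the kernel
of the derivative of `F` at `p`. -/
def IsRegular (F : V → W) : Prop :=
  ContDiff ℝ ∞ F ∧ ∀ p, F p = 0 → Function.Surjective (fderiv ℝ F p)

/-- The level set `{p | F p = 0}` is a closed (compact, without boundary) connected smooth surface.
(It is automatically orientable, being a regular level set in a vector space.) -/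
def IsClosedSurface (F : V → W) : Prop :=
  FiniteDimensional ℝ V ∧ FiniteDimensional ℝ W ∧
  IsRegular F ∧ Module.finrank ℝ V = Module.finrank ℝ W + 2 ∧
    IsCompact {p | F p = 0} ∧ IsConnected {p | F p = 0}

/-- The first Betti number of `X` (the rank of `H¹(X; ℤ) = [X, S¹]`) is at least `k`: there are `k`
continuous maps from `X` to the circle such that no nontrivial product of integral powers of them
is null-homotopic, i.e. of the form `exp (i φ)` with `φ : X → ℝ` continuous. -/
def BettiOneAtLeast (X : Type*) [TopologicalSpace X] (k : ℕ) : Prop :=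
  ∃ f : Fin k → X → Circle, (∀ i, Continuous (f i)) ∧
    ∀ n : Fin k → ℤ,
      (∃ φ : X → ℝ, Continuous φ ∧ ∀ x, ∏ i, (f i x) ^ (n i) = Circle.exp (φ x)) → n = 0

/-- The tangent space at `p` of the level set `{F = 0}`. -/
def IsTangent (F : V → W) (p v : V) : Prop := fderiv ℝ F p v = 0

/-- `G` is (a smooth extension to `V` of) a smooth Riemannian metric on the manifold `{F = 0}`:
a smooth field of symmetric bilinear forms, positive definite on the tangent spaces. -/
def IsRiemannianMetric (F : V → W) (G : V → V →L[ℝ] V →L[ℝ] ℝ) : Prop :=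
  ContDiff ℝ ∞ G ∧ (∀ p v w, G p v w = G p w v) ∧
    ∀ p, F p = 0 → ∀ v, IsTangent F p v → v ≠ 0 → 0 < G p v v

/-- The left hand side of the geodesic equation (the Euler-Lagrange expression of the energy
`∫ G(γ', γ') / 2`), tested against the vector `w`. -/
noncomputable def eulerLagrange (G : V → V →L[ℝ] V →L[ℝ] ℝ) (γ : ℝ → V) (t : ℝ) (w : V) : ℝ :=
  G (γ t) (deriv (deriv γ) t) w + fderiv ℝ G (γ t) (deriv γ t) (deriv γ t) w
    - (1 / 2) * fderiv ℝ G (γ t) w (deriv γ t) (deriv γ t)

/-- `γ : ℝ → {F = 0}` is a geodesic of the metric `G` on `{F = 0}`: it is smooth and satisfies the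
Euler-Lagrange equation of the energy against all tangent vectors. -/
def IsGeodesic (F : V → W) (G : V → V →L[ℝ] V →L[ℝ] ℝ) (γ : ℝ → V) : Prop :=
  ContDiff ℝ ∞ γ ∧ (∀ t, F (γ t) = 0) ∧
    ∀ t w, IsTangent F (γ t) w → eulerLagrange G γ t w = 0

/-- `J` is a Jacobi field of `({F = 0}, G)`: it is the variation field of a smooth one-parameter
family of geodesics. -/
def IsJacobiField (F : V → W) (G : V → V →L[ℝ] V →L[ℝ] ℝ) (J : ℝ → V) : Prop :=
  ∃ Γ : ℝ × ℝ → V, ContDiff ℝ ∞ Γ ∧
    (∃ ε > 0, ∀ s, |s| < ε → IsGeodesic F G (fun t => Γ (s, t))) ∧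
    ∀ t, J t = deriv (fun s => Γ (s, t)) 0

/-- No nontrivial Jacobi field vanishes at two distinct points. -/
def NoConjugatePoints (F : V → W) (G : V → V →L[ℝ] V →L[ℝ] ℝ) : Prop :=
  ∀ J : ℝ → V, IsJacobiField F G J → ∀ a b, a ≠ b → J a = 0 → J b = 0 → ∀ t, J t = 0

/-- The map whose zero set is `M × S¹`, where `M = {F = 0}` and `S¹ = ℝ/ℤ` is identified with the
unit circle in `ℂ` by `t ↦ exp (2 π i t)`. -/
noncomputable def timesCircle (F : V → W) : V × ℂ → W × ℝ :=
  fun q => (F q.1, Complex.normSq q.2 - 1)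

/-- The map whose zero set is `M × ℝ`, where `M = {F = 0}`. -/
def timesLine (F : V → W) : V × ℝ → W := fun q => F q.1

/-- The covering map `M × ℝ → M × S¹`, `(x, t) ↦ (x, t mod 1)`. -/
noncomputable def cover (V : Type*) : V × ℝ → V × ℂ :=
  fun q => (q.1, Complex.exp (2 * Real.pi * Complex.I * q.2))

/-- The pull-back `π^* G` of a field of bilinear forms. -/
noncomputable def pullback (π : V → V') (G : V' → V' →L[ℝ] V' →L[ℝ] ℝ) :
    V → V →L[ℝ] V →L[ℝ] ℝ :=
  fun p => (G (π p)).bilinearComp (fderiv ℝ π p) (fderiv ℝ π p)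

/-- The product metric `g₁ + dt²` on `M × ℝ`. -/
noncomputable def timesDtSq (g : V → V →L[ℝ] V →L[ℝ] ℝ) :
    V × ℝ → (V × ℝ) →L[ℝ] (V × ℝ) →L[ℝ] ℝ :=
  fun q => (g q.1).bilinearComp (ContinuousLinearMap.fst ℝ V ℝ) (ContinuousLinearMap.fst ℝ V ℝ)
    + (ContinuousLinearMap.mul ℝ ℝ).bilinearComp (ContinuousLinearMap.snd ℝ V ℝ)
        (ContinuousLinearMap.snd ℝ V ℝ)

/-- The Riemannian manifolds `({F = 0}, G)` and `({F' = 0}, G')` are isometric: there is a
diffeomorphism (the restriction of a smooth map of the ambient spaces, with inverse of the same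
kind) whose derivative preserves the metrics. -/
def AreIsometric (F : V → W) (G : V → V →L[ℝ] V →L[ℝ] ℝ)
    (F' : V' → W') (G' : V' → V' →L[ℝ] V' →L[ℝ] ℝ) : Prop :=
  ∃ (Φ : V → V') (Ψ : V' → V), ContDiff ℝ ∞ Φ ∧ ContDiff ℝ ∞ Ψ ∧
    (∀ p, F p = 0 → F' (Φ p) = 0) ∧ (∀ q, F' q = 0 → F (Ψ q) = 0) ∧
    (∀ p, F p = 0 → Ψ (Φ p) = p) ∧ (∀ q, F' q = 0 → Φ (Ψ q) = q) ∧
    ∀ p, F p = 0 → ∀ v w, IsTangent F p v → IsTangent F p w →
      G' (Φ p) (fderiv ℝ Φ p v) (fderiv ℝ Φ p w) = G p v w

end Pool.Agent.H847R2.Shear
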