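import Pool.Agent.H847R2.Shear.General

/-! The explicit example. -/

namespace Pool.Agent.H847R2.Shear

open scoped ContDiff

section sqform

variable {U : Type*} [NormedAddCommGroup U] [NormedSpace ℝ U]

/-- The metric `E + A ⊗ A`, where the covector `A = a + B q` is an affine function of the point. -/
noncomputable def sqForm (E : U →L[ℝ] U →L[ℝ] ℝ) (a : U →L[ℝ] ℝ) (B : U →L[ℝ] U →L[ℝ] ℝ) :
    U → U →L[ℝ] U →L[ℝ] ℝ :=
  fun q => E + (a + B q).smulRight (a + B q)

variable (E : U →L[ℝ] U →L[ℝ] ℝ) (a : U →L[ℝ] ℝ) (B : U →L[ℝ] U →L[ℝ] ℝ)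

lemma sqForm_apply (q X Y : U) :
    sqForm E a B q X Y = E X Y + (a X + B q X) * (a Y + B q Y) := by
  simp [sqForm]
  ring

lemma sqForm_contDiff : ContDiff ℝ ∞ (sqForm E a B) := by
  have h : ContDiff ℝ ∞ (fun q => a + B q) := contDiff_const.add B.contDiff
  exact contDiff_const.add (h.smulRight h)

lemma sqForm_fderiv (q Z X Y : U) :
    fderiv ℝ (sqForm E a B) q Z X Y
      = B Z X * (a Y + B q Y) + (a X + B q X) * B Z Y := by
  have hd : DifferentiableAt ℝ (sqForm E a B) q :=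
    ((sqForm_contDiff E a B).differentiable (by simp)).differentiableAt
  have h1 : HasFDerivAt (fun q => sqForm E a B q X Y)
      ((fderiv ℝ (sqForm E a B) q).flip X |>.flip Y) q := by
    have := (hd.hasFDerivAt.clm_apply (hasFDerivAt_const X q)).clm_apply (hasFDerivAt_const Y q)
    refine this.congr_fderiv ?_
    ext Z
    simp
  have h2 : HasFDerivAt (fun q => sqForm E a B q X Y)
      ((a X + B q X) • (B.flip Y) + (a Y + B q Y) • (B.flip X)) q := by
    have e : (fun q => sqForm E a B q X Y) = fun q => E X Y + (a X + B q X) * (a Y + B q Y) := by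
      funext q; exact sqForm_apply E a B q X Y
    rw [e]
    have hX : HasFDerivAt (fun q => a X + B q X) (B.flip X) q :=
      ((B.flip X).hasFDerivAt).const_add (a X)
    have hY : HasFDerivAt (fun q => a Y + B q Y) (B.flip Y) q :=
      ((B.flip Y).hasFDerivAt).const_add (a Y)
    exact (hX.mul hY).const_add (E X Y)
  have := congrArg (fun L => L Z) (h1.unique h2)
  simp only [ContinuousLinearMap.flip_apply, add_apply, smul_apply, smul_eq_mul] at this
  rw [this]; ring

lemma eulerLagrange_sqForm (γ : ℝ → U) (t : ℝ) (w : U) :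
    eulerLagrange (sqForm E a B) γ t w =
      E (deriv (deriv γ) t) w +
      (a (deriv (deriv γ) t) + B (γ t) (deriv (deriv γ) t) + B (deriv γ t) (deriv γ t))
        * (a w + B (γ t) w)
      + (a (deriv γ t) + B (γ t) (deriv γ t)) * (B (deriv γ t) w - B w (deriv γ t)) := by
  unfold eulerLagrange
  rw [sqForm_apply, sqForm_fderiv, sqForm_fderiv]
  ring

end sqform

/-- `β w ξ = Im (conj w * ξ)`. -/
noncomputable def β : ℂ →L[ℝ] ℂ →L[ℝ] ℝ :=
  (ContinuousLinearMap.mul ℝ ℝ).bilinearComp Complex.reCLM Complex.imCLM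
    - (ContinuousLinearMap.mul ℝ ℝ).bilinearComp Complex.imCLM Complex.reCLM

/-- `ip w ξ = Re (conj w * ξ)`. -/
noncomputable def ip : ℂ →L[ℝ] ℂ →L[ℝ] ℝ :=
  (ContinuousLinearMap.mul ℝ ℝ).bilinearComp Complex.reCLM Complex.reCLM
    + (ContinuousLinearMap.mul ℝ ℝ).bilinearComp Complex.imCLM Complex.imCLM

lemma β_apply (w ξ : ℂ) : β w ξ = w.re * ξ.im - w.im * ξ.re := by simp [β]

lemma ip_apply (w ξ : ℂ) : ip w ξ = w.re * ξ.re + w.im * ξ.im := by simp [ip]

/-- The ambient space. -/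
abbrev V3 : Type := Fin 3 → ℂ

/-- The surface `M`: triples `(z₀, z₁, z₂)` of unit complex numbers with
`Re z₀ + Re z₁ + Re z₂ = 0`, i.e. `{cos x + cos y + cos z = 0}` in the torus `(ℝ/2πℤ)³`. -/
noncomputable def F0 : V3 → (Fin 3 → ℝ) × ℝ :=
  fun z => (fun k => Complex.normSq (z k) - 1, ∑ k, (z k).re)

/-- coordinate projections -/
noncomputable def prV (k : Fin 3) (T : Type*) [NormedAddCommGroup T] [NormedSpace ℝ T] :
    V3 × T →L[ℝ] ℂ :=
  (ContinuousLinearMap.proj k).comp (ContinuousLinearMap.fst ℝ V3 T)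

@[simp] lemma prV_apply (k : Fin 3) (T : Type*) [NormedAddCommGroup T] [NormedSpace ℝ T]
    (q : V3 × T) : prV k T q = q.1 k := rfl

/-- the flat form `dx² + dy² + dz²` -/
noncomputable def flatForm (T : Type*) [NormedAddCommGroup T] [NormedSpace ℝ T] :
    (V3 × T) →L[ℝ] (V3 × T) →L[ℝ] ℝ :=
  ∑ k : Fin 3, ip.bilinearComp (prV k T) (prV k T)

lemma flatForm_apply (T : Type*) [NormedAddCommGroup T] [NormedSpace ℝ T] (X Y : V3 × T) :
    flatForm T X Y = ∑ k : Fin 3, ip (X.1 k) (Y.1 k) := by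
  simp [flatForm, Fin.sum_univ_three]

/-- The bilinear map giving the connection form on `V3 × ℂ`. -/
noncomputable def B1 : (V3 × ℂ) →L[ℝ] (V3 × ℂ) →L[ℝ] ℝ :=
  (1 / (2 * Real.pi)) • β.bilinearComp (ContinuousLinearMap.snd ℝ V3 ℂ)
      (ContinuousLinearMap.snd ℝ V3 ℂ)
    + β.bilinearComp (prV 0 ℂ) (prV 0 ℂ)

lemma B1_apply (X Y : V3 × ℂ) :
    B1 X Y = (1 / (2 * Real.pi)) * β X.2 Y.2 + β (X.1 0) (Y.1 0) := by
  simp [B1]

/-- The metric `dx² + dy² + dz² + (dt + dx)²` on `M × S¹`. -/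
noncomputable def g0 : V3 × ℂ → (V3 × ℂ) →L[ℝ] (V3 × ℂ) →L[ℝ] ℝ :=
  sqForm (flatForm ℂ) 0 B1

noncomputable def B2 : (V3 × ℝ) →L[ℝ] (V3 × ℝ) →L[ℝ] ℝ :=
  β.bilinearComp (prV 0 ℝ) (prV 0 ℝ)

lemma B2_apply (X Y : V3 × ℝ) : B2 X Y = β (X.1 0) (Y.1 0) := by
  simp [B2]

lemma hasFDerivAt_cover (q : V3 × ℝ) :
    HasFDerivAt (cover V3) ((ContinuousLinearMap.fst ℝ V3 ℝ).prod
      ((ContinuousLinearMap.snd ℝ V3 ℝ).smulRight
        (Complex.exp (2 * Real.pi * Complex.I * q.2) * (2 * Real.pi * Complex.I)))) q := by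
  have h1 : HasDerivAt (fun t : ℝ => Complex.exp (2 * Real.pi * Complex.I * t))
      (Complex.exp (2 * Real.pi * Complex.I * q.2) * (2 * Real.pi * Complex.I)) q.2 := by
    have : HasDerivAt (fun t : ℝ => (2 * Real.pi * Complex.I * t : ℂ)) (2 * Real.pi * Complex.I)
        q.2 := by
      simpa using (Complex.ofRealCLM.hasDerivAt (x := q.2)).const_mul (2 * Real.pi * Complex.I)
    exact this.cexp
  have h2 : HasFDerivAt (fun q : V3 × ℝ => Complex.exp (2 * Real.pi * Complex.I * q.2))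
      ((ContinuousLinearMap.snd ℝ V3 ℝ).smulRight
        (Complex.exp (2 * Real.pi * Complex.I * q.2) * (2 * Real.pi * Complex.I))) q := by
    have h3 := h1.hasFDerivAt.comp q
      (hasFDerivAt_snd : HasFDerivAt Prod.snd (ContinuousLinearMap.snd ℝ V3 ℝ) q)
    refine h3.congr_fderiv ?_
    ext <;> simp
  exact hasFDerivAt_fst.prodMk h2

lemma fderiv_cover (q X : V3 × ℝ) :
    fderiv ℝ (cover V3) q X = (X.1, (X.2 : ℂ) *
        (Complex.exp (2 * Real.pi * Complex.I * q.2) * (2 * Real.pi * Complex.I))) := by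
  rw [(hasFDerivAt_cover q).fderiv]
  simp

lemma pullback_eq : pullback (cover V3) g0 =
    sqForm (flatForm ℝ) (ContinuousLinearMap.snd ℝ V3 ℝ) B2 := by
  funext q
  refine ContinuousLinearMap.ext fun X => ContinuousLinearMap.ext fun Y => ?_
  have hpi : Real.pi ≠ 0 := Real.pi_ne_zero
  have key : ∀ X : V3 × ℝ, B1 (cover V3 q) (fderiv ℝ (cover V3) q X) = X.2 + β (q.1 0) (X.1 0) := by
    intro X
    rw [B1_apply, fderiv_cover]
    have e1 : β (cover V3 q).2 ((X.2 : ℂ) *
        (Complex.exp (2 * Real.pi * Complex.I * q.2) * (2 * Real.pi * Complex.I)))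
        = 2 * Real.pi * X.2 := by
      set u : ℂ := Complex.exp (2 * Real.pi * Complex.I * q.2) with hu
      have hn : u.re * u.re + u.im * u.im = 1 := by
        have h1 : ‖u‖ = 1 := by
          rw [hu, show (2 * Real.pi * Complex.I * q.2 : ℂ)
            = ((2 * Real.pi * q.2 : ℝ) : ℂ) * Complex.I by push_cast; ring]
          exact Complex.norm_exp_ofReal_mul_I _
        have h2 : Complex.normSq u = 1 := by rw [Complex.normSq_eq_norm_sq, h1]; norm_num
        rwa [Complex.normSq_apply] at h2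
      change β u _ = _
      rw [β_apply]
      have er : ((X.2 : ℂ) * (u * (2 * Real.pi * Complex.I))).re = -(2 * Real.pi * X.2) * u.im := by
        simp
        ring
      have ei : ((X.2 : ℂ) * (u * (2 * Real.pi * Complex.I))).im = (2 * Real.pi * X.2) * u.re := by
        simp
        ring
      rw [er, ei]
      linear_combination (2 * Real.pi * X.2) * hn
    rw [e1]
    change 1 / (2 * Real.pi) * (2 * Real.pi * X.2) + β (q.1 0) (X.1 0) = _
    field_simp
  have e : pullback (cover V3) g0 q X Y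
      = g0 (cover V3 q) (fderiv ℝ (cover V3) q X) (fderiv ℝ (cover V3) q Y) := rfl
  rw [e, g0, sqForm_apply, sqForm_apply, key, key, flatForm_apply, flatForm_apply, B2_apply,
    B2_apply, fderiv_cover, fderiv_cover]
  simp

/-- Derivative of `F0`. -/
lemma hasFDerivAt_F0 (z : V3) : HasFDerivAt F0
    ((ContinuousLinearMap.pi fun k => (2 : ℝ) • (ip (z k)).comp (ContinuousLinearMap.proj k)).prod
      (∑ k : Fin 3, Complex.reCLM.comp (ContinuousLinearMap.proj k))) z := by
  have h1 : HasFDerivAt (fun z : V3 => fun k => Complex.normSq (z k) - 1)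
      (ContinuousLinearMap.pi fun k => (2 : ℝ) • (ip (z k)).comp (ContinuousLinearMap.proj k)) z := by
    rw [hasFDerivAt_pi']
    intro k
    have hp : HasFDerivAt (fun z : V3 => z k) (ContinuousLinearMap.proj k : V3 →L[ℝ] ℂ) z :=
      (ContinuousLinearMap.proj k : V3 →L[ℝ] ℂ).hasFDerivAt
    have hr : HasFDerivAt (fun z : V3 => (z k).re)
        (Complex.reCLM.comp (ContinuousLinearMap.proj k : V3 →L[ℝ] ℂ)) z :=
      Complex.reCLM.hasFDerivAt.comp z hp
    have hi : HasFDerivAt (fun z : V3 => (z k).im)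
        (Complex.imCLM.comp (ContinuousLinearMap.proj k : V3 →L[ℝ] ℂ)) z :=
      Complex.imCLM.hasFDerivAt.comp z hp
    have := ((hr.mul hr).add (hi.mul hi)).sub_const 1
    refine this.congr_fderiv ?_
    ext v
    simp [ip_apply]
    ring
  have h2 : HasFDerivAt (fun z : V3 => ∑ k, (z k).re)
      (∑ k : Fin 3, Complex.reCLM.comp (ContinuousLinearMap.proj k)) z := by
    apply HasFDerivAt.fun_sum
    intro k _
    exact (Complex.reCLM.comp (ContinuousLinearMap.proj k : V3 →L[ℝ] ℂ)).hasFDerivAt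
  exact h1.prodMk h2

lemma fderiv_F0 (z v : V3) : fderiv ℝ F0 z v = (fun k => 2 * ip (z k) (v k), ∑ k, (v k).re) := by
  rw [(hasFDerivAt_F0 z).fderiv]
  ext <;> simp

lemma F0_contDiff : ContDiff ℝ ∞ F0 := by
  have hre : ∀ k : Fin 3, ContDiff ℝ ∞ (fun z : V3 => (z k).re) := fun k =>
    (Complex.reCLM.comp (ContinuousLinearMap.proj k : V3 →L[ℝ] ℂ)).contDiff
  have him : ∀ k : Fin 3, ContDiff ℝ ∞ (fun z : V3 => (z k).im) := fun k =>
    (Complex.imCLM.comp (ContinuousLinearMap.proj k : V3 →L[ℝ] ℂ)).contDiff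
  refine ContDiff.prodMk ?_ ?_
  · rw [contDiff_pi]
    intro k
    have : (fun z : V3 => Complex.normSq (z k) - 1)
        = fun z : V3 => ((z k).re * (z k).re + (z k).im * (z k).im) - 1 := by
      funext z; rw [Complex.normSq_apply]
    rw [this]
    exact (((hre k).mul (hre k)).add ((him k).mul (him k))).sub contDiff_const
  · exact ContDiff.sum fun k _ => hre k

lemma F0_eq_zero_iff (z : V3) :
    F0 z = 0 ↔ (∀ k, Complex.normSq (z k) = 1) ∧ ∑ k, (z k).re = 0 := by
  rw [F0, Prod.ext_iff]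
  simp [funext_iff, sub_eq_zero]

lemma tangent_timesLine_iff (q X : V3 × ℝ) :
    IsTangent (timesLine F0) q X ↔ (∀ k, ip (q.1 k) (X.1 k) = 0) ∧ ∑ k, (X.1 k).re = 0 := by
  have h : HasFDerivAt (timesLine F0 : V3 × ℝ → _)
      ((fderiv ℝ F0 q.1).comp (ContinuousLinearMap.fst ℝ V3 ℝ)) q := by
    have h1 : HasFDerivAt F0 (fderiv ℝ F0 q.1) q.1 :=
      (F0_contDiff.differentiable (by simp)).differentiableAt.hasFDerivAt
    exact h1.comp q hasFDerivAt_fst
  unfold IsTangent
  rw [h.fderiv]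
  change fderiv ℝ F0 q.1 X.1 = 0 ↔ _
  rw [fderiv_F0, Prod.ext_iff]
  simp [funext_iff]

lemma tangent_timesCircle_iff (q X : V3 × ℂ) :
    IsTangent (timesCircle F0) q X ↔
      (∀ k, ip (q.1 k) (X.1 k) = 0) ∧ ∑ k, (X.1 k).re = 0 ∧ ip q.2 X.2 = 0 := by
  have h : HasFDerivAt (timesCircle F0 : V3 × ℂ → _)
      (((fderiv ℝ F0 q.1).comp (ContinuousLinearMap.fst ℝ V3 ℂ)).prod
        ((2 : ℝ) • (ip q.2).comp (ContinuousLinearMap.snd ℝ V3 ℂ))) q := by
    have h1 : HasFDerivAt F0 (fderiv ℝ F0 q.1) q.1 :=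
      (F0_contDiff.differentiable (by simp)).differentiableAt.hasFDerivAt
    refine (h1.comp q hasFDerivAt_fst).prodMk ?_
    have hp : HasFDerivAt (fun z : V3 × ℂ => z.2) (ContinuousLinearMap.snd ℝ V3 ℂ) q :=
      hasFDerivAt_snd
    have hr : HasFDerivAt (fun z : V3 × ℂ => z.2.re)
        (Complex.reCLM.comp (ContinuousLinearMap.snd ℝ V3 ℂ)) q :=
      Complex.reCLM.hasFDerivAt.comp q hp
    have hi : HasFDerivAt (fun z : V3 × ℂ => z.2.im)
        (Complex.imCLM.comp (ContinuousLinearMap.snd ℝ V3 ℂ)) q :=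
      Complex.imCLM.hasFDerivAt.comp q hp
    have := ((hr.mul hr).add (hi.mul hi)).sub_const 1
    have e : (fun z : V3 × ℂ => Complex.normSq z.2 - 1)
        = fun z : V3 × ℂ => (z.2.re * z.2.re + z.2.im * z.2.im) - 1 := by
      funext z; rw [Complex.normSq_apply]
    rw [e]
    refine this.congr_fderiv ?_
    ext v
    · simp [ip_apply]
    · simp [ip_apply]; ring
  unfold IsTangent
  rw [h.fderiv]
  change (fderiv ℝ F0 q.1 X.1, (2 : ℝ) * ip q.2 X.2) = 0 ↔ _
  rw [fderiv_F0, Prod.ext_iff, Prod.ext_iff]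
  simp [funext_iff, and_assoc]

end Pool.Agent.H847R2.Shear
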