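import Pool.Agent.H847R2.Shear.Defs

namespace Pool.Agent.H847R2.Shear

open scoped ContDiff

variable {V W V' W' : Type*}
  [NormedAddCommGroup V] [NormedSpace ℝ V] [NormedAddCommGroup W] [NormedSpace ℝ W]
  [NormedAddCommGroup V'] [NormedSpace ℝ V'] [NormedAddCommGroup W'] [NormedSpace ℝ W']

section firstVariation

variable {Γ : ℝ × ℝ → V}

lemma hasDerivAt_snd (hΓ : ContDiff ℝ ∞ Γ) (s t : ℝ) :
    HasDerivAt (fun t => Γ (s, t)) (fderiv ℝ Γ (s, t) (0, 1)) t := by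
  have h1 : HasFDerivAt Γ (fderiv ℝ Γ (s, t)) (s, t) :=
    (hΓ.differentiable (by simp)).differentiableAt.hasFDerivAt
  have h2 : HasDerivAt (fun t : ℝ => (s, t)) ((0 : ℝ), (1 : ℝ)) t :=
    (hasDerivAt_const t s).prodMk (hasDerivAt_id t)
  exact h1.comp_hasDerivAt t h2

lemma hasDerivAt_fst (hΓ : ContDiff ℝ ∞ Γ) (s t : ℝ) :
    HasDerivAt (fun s => Γ (s, t)) (fderiv ℝ Γ (s, t) (1, 0)) s := by
  have h1 : HasFDerivAt Γ (fderiv ℝ Γ (s, t)) (s, t) :=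
    (hΓ.differentiable (by simp)).differentiableAt.hasFDerivAt
  have h2 : HasDerivAt (fun s : ℝ => (s, t)) ((1 : ℝ), (0 : ℝ)) s :=
    (hasDerivAt_id s).prodMk (hasDerivAt_const s t)
  exact h1.comp_hasDerivAt s h2

lemma contDiff_fderiv_apply (hΓ : ContDiff ℝ ∞ Γ) (a : ℝ × ℝ) :
    ContDiff ℝ ∞ (fun q => fderiv ℝ Γ q a) := by
  have : ContDiff ℝ ∞ (fderiv ℝ Γ) := hΓ.fderiv_right (by simp)
  exact this.clm_apply contDiff_const

lemma mixed (hΓ : ContDiff ℝ ∞ Γ) (q a b : ℝ × ℝ) :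
    fderiv ℝ (fun q => fderiv ℝ Γ q a) q b = fderiv ℝ (fun q => fderiv ℝ Γ q b) q a := by
  have hd : DifferentiableAt ℝ (fderiv ℝ Γ) q := by
    have : ContDiff ℝ ∞ (fderiv ℝ Γ) := hΓ.fderiv_right (by simp)
    exact (this.differentiable (by simp)).differentiableAt
  have e : ∀ a b, fderiv ℝ (fun q => fderiv ℝ Γ q a) q b = fderiv ℝ (fderiv ℝ Γ) q b a := by
    intro a b
    rw [fderiv_clm_apply hd (differentiableAt_const a)]
    simp
  rw [e, e]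
  have hs : IsSymmSndFDerivAt ℝ Γ q := by
    refine ContDiffAt.isSymmSndFDerivAt (n := ∞) hΓ.contDiffAt ?_
    simp only [minSmoothness_of_isRCLikeNormedField]
    exact WithTop.coe_le_coe.2 le_top
  exact hs b a

lemma first_variation {G : V → V →L[ℝ] V →L[ℝ] ℝ} (hG : ContDiff ℝ ∞ G)
    (hsym : ∀ p v w, G p v w = G p w v) (hΓ : ContDiff ℝ ∞ Γ) (t : ℝ) :
    eulerLagrange G (fun t => Γ (0, t)) t (fderiv ℝ Γ (0, t) (1, 0)) =
      deriv (fun t => G (Γ (0, t)) (fderiv ℝ Γ (0, t) (0, 1)) (fderiv ℝ Γ (0, t) (1, 0))) t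
      - (1 / 2) * deriv (fun s => G (Γ (s, t)) (fderiv ℝ Γ (s, t) (0, 1))
          (fderiv ℝ Γ (s, t) (0, 1))) 0 := by
  have hGd : ∀ p, HasFDerivAt G (fderiv ℝ G p) p := fun p =>
    (hG.differentiable (by simp)).differentiableAt.hasFDerivAt
  set Γt : ℝ × ℝ → V := fun q => fderiv ℝ Γ q (0, 1) with hΓt
  set Γs : ℝ × ℝ → V := fun q => fderiv ℝ Γ q (1, 0) with hΓs
  have cΓt : ContDiff ℝ ∞ Γt := contDiff_fderiv_apply hΓ _
  have cΓs : ContDiff ℝ ∞ Γs := contDiff_fderiv_apply hΓ _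
  have hmix : fderiv ℝ Γt (0, t) (1, 0) = fderiv ℝ Γs (0, t) (0, 1) := mixed hΓ _ _ _
  have e1 : HasDerivAt (fun t => G (Γ (0, t)) (Γt (0, t)) (Γs (0, t)))
      ((fderiv ℝ G (Γ (0, t)) (Γt (0, t)) (Γt (0, t)) + G (Γ (0, t)) (fderiv ℝ Γt (0, t) (0, 1)))
        (Γs (0, t)) + G (Γ (0, t)) (Γt (0, t)) (fderiv ℝ Γs (0, t) (0, 1))) t := by
    have a1 : HasDerivAt (fun t => G (Γ (0, t))) (fderiv ℝ G (Γ (0, t)) (Γt (0, t))) t :=
      HasFDerivAt.comp_hasDerivAt (l := G) (l' := fderiv ℝ G (Γ (0, t))) t (hGd (Γ (0, t)))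
        (hasDerivAt_snd hΓ 0 t)
    exact (a1.clm_apply (hasDerivAt_snd cΓt 0 t)).clm_apply (hasDerivAt_snd cΓs 0 t)
  have e2 : HasDerivAt (fun s => G (Γ (s, t)) (Γt (s, t)) (Γt (s, t)))
      ((fderiv ℝ G (Γ (0, t)) (Γs (0, t)) (Γt (0, t)) + G (Γ (0, t)) (fderiv ℝ Γt (0, t) (1, 0)))
        (Γt (0, t)) + G (Γ (0, t)) (Γt (0, t)) (fderiv ℝ Γt (0, t) (1, 0))) 0 := by
    have a1 : HasDerivAt (fun s => G (Γ (s, t))) (fderiv ℝ G (Γ (0, t)) (Γs (0, t))) 0 :=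
      HasFDerivAt.comp_hasDerivAt (l := G) (l' := fderiv ℝ G (Γ (0, t))) 0 (hGd (Γ (0, t)))
        (hasDerivAt_fst hΓ 0 t)
    exact (a1.clm_apply (hasDerivAt_fst cΓt 0 t)).clm_apply (hasDerivAt_fst cΓt 0 t)
  have d1 : deriv (fun t => Γ (0, t)) = fun t => Γt (0, t) := by
    funext t; exact (hasDerivAt_snd hΓ 0 t).deriv
  have d2 : deriv (deriv (fun t => Γ (0, t))) t = fderiv ℝ Γt (0, t) (0, 1) := by
    rw [d1]; exact (hasDerivAt_snd cΓt 0 t).deriv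
  unfold eulerLagrange
  rw [d2, d1]
  change G (Γ (0, t)) (fderiv ℝ Γt (0, t) (0, 1)) (Γs (0, t)) +
    fderiv ℝ G (Γ (0, t)) (Γt (0, t)) (Γt (0, t)) (Γs (0, t)) -
    1 / 2 * fderiv ℝ G (Γ (0, t)) (Γs (0, t)) (Γt (0, t)) (Γt (0, t)) = _
  rw [e1.deriv, e2.deriv, hmix]
  simp only [add_apply]
  rw [hsym (Γ (0, t)) (fderiv ℝ Γs (0, t) (0, 1)) (Γt (0, t))]
  ring

end firstVariation

/-- geodesics of a manifold isometric to `(M, g₁) × ℝ`: the `ℝ`-coordinate is affine. -/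
lemma affine_of_isometric {F : V → W} {G : V × ℝ → (V × ℝ) →L[ℝ] (V × ℝ) →L[ℝ] ℝ}
    {g : V → V →L[ℝ] V →L[ℝ] ℝ} {Φ Ψ : V × ℝ → V × ℝ}
    (hF : ContDiff ℝ ∞ F) (hG : ContDiff ℝ ∞ G) (hsym : ∀ p v w, G p v w = G p w v)
    (hΦ : ContDiff ℝ ∞ Φ) (hΨ : ContDiff ℝ ∞ Ψ)
    (h1 : ∀ p, timesLine F p = 0 → timesLine F (Φ p) = 0)
    (h2 : ∀ q, timesLine F q = 0 → timesLine F (Ψ q) = 0)
    (h3 : ∀ p, timesLine F p = 0 → Ψ (Φ p) = p) (h4 : ∀ q, timesLine F q = 0 → Φ (Ψ q) = q)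
    (h5 : ∀ p, timesLine F p = 0 → ∀ v w, IsTangent (timesLine F) p v →
      IsTangent (timesLine F) p w →
      timesDtSq g (Φ p) (fderiv ℝ Φ p v) (fderiv ℝ Φ p w) = G p v w)
    {γ : ℝ → V × ℝ} (hγ : IsGeodesic (timesLine F) G γ) (t : ℝ) :
    deriv (deriv (fun t => (Φ (γ t)).2)) t = 0 := by
  obtain ⟨cγ, mγ, eγ⟩ := hγ
  have cF : ContDiff ℝ ∞ (timesLine F) := hF.comp contDiff_fst
  set δ : ℝ → V × ℝ := fun t => Φ (γ t) with hδ
  have cδ : ContDiff ℝ ∞ δ := hΦ.comp cγ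
  have mδ : ∀ t, timesLine F (δ t) = 0 := fun t => h1 _ (mγ t)
  set Γ2 : ℝ × ℝ → V × ℝ := fun q => δ q.2 + (0, q.1) with hΓ2
  have cΓ2 : ContDiff ℝ ∞ Γ2 := by
    refine (cδ.comp contDiff_snd).add (contDiff_const.prodMk contDiff_fst)
  have mΓ2 : ∀ q, timesLine F (Γ2 q) = 0 := by
    intro q
    have := mδ q.2
    simpa [timesLine, hΓ2] using this
  set Γ : ℝ × ℝ → V × ℝ := fun q => Ψ (Γ2 q) with hΓdef
  have cΓ : ContDiff ℝ ∞ Γ := hΨ.comp cΓ2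
  have mΓ : ∀ q, timesLine F (Γ q) = 0 := fun q => h2 _ (mΓ2 q)
  have hΓ0 : ∀ t, Γ (0, t) = γ t := by
    intro t
    have : Γ2 (0, t) = Φ (γ t) := by simp [hΓ2, hδ]
    change Ψ (Γ2 (0, t)) = γ t
    rw [this]; exact h3 _ (mγ t)
  have tanΓ : ∀ q a, IsTangent (timesLine F) (Γ q) (fderiv ℝ Γ q a) := by
    intro q a
    have hc : (fun q => timesLine F (Γ q)) = fun _ => 0 := funext mΓ
    have hd : HasFDerivAt (fun q => timesLine F (Γ q))
        ((fderiv ℝ (timesLine F) (Γ q)).comp (fderiv ℝ Γ q)) q :=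
      ((cF.differentiable (by simp)).differentiableAt.hasFDerivAt).comp q
        ((cΓ.differentiable (by simp)).differentiableAt.hasFDerivAt)
    rw [hc] at hd
    have := hd.unique (hasFDerivAt_const (0 : W) q)
    exact congrArg (fun L => L a) this
  have hΦΓ : ∀ q a, fderiv ℝ Φ (Γ q) (fderiv ℝ Γ q a) = fderiv ℝ Γ2 q a := by
    intro q a
    have hc : (fun q => Φ (Γ q)) = Γ2 := funext fun q => h4 _ (mΓ2 q)
    have hd : HasFDerivAt (fun q => Φ (Γ q))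
        ((fderiv ℝ Φ (Γ q)).comp (fderiv ℝ Γ q)) q :=
      ((hΦ.differentiable (by simp)).differentiableAt.hasFDerivAt).comp q
        ((cΓ.differentiable (by simp)).differentiableAt.hasFDerivAt)
    rw [hc] at hd
    have := hd.fderiv
    rw [this]; rfl
  have hmet : ∀ q a b, G (Γ q) (fderiv ℝ Γ q a) (fderiv ℝ Γ q b)
      = timesDtSq g (Γ2 q) (fderiv ℝ Γ2 q a) (fderiv ℝ Γ2 q b) := by
    intro q a b
    rw [← h5 (Γ q) (mΓ q) _ _ (tanΓ q a) (tanΓ q b), hΦΓ, hΦΓ]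
    rw [show Φ (Γ q) = Γ2 q from h4 _ (mΓ2 q)]
  have dΓ2t : ∀ s t, fderiv ℝ Γ2 (s, t) (0, 1) = deriv δ t := by
    intro s t
    have a := hasDerivAt_snd cΓ2 s t
    have b : HasDerivAt (fun t => Γ2 (s, t)) (deriv δ t) t := by
      have := ((cδ.differentiable (by simp)).differentiableAt (x := t)).hasDerivAt.add_const
        ((0 : V), s)
      simpa [hΓ2] using this
    exact a.unique b
  have dΓ2s : ∀ s t, fderiv ℝ Γ2 (s, t) (1, 0) = ((0 : V), (1 : ℝ)) := by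
    intro s t
    have a := hasDerivAt_fst cΓ2 s t
    have b : HasDerivAt (fun s => Γ2 (s, t)) ((0 : V), (1 : ℝ)) s := by
      have := ((hasDerivAt_const s (0 : V)).prodMk (hasDerivAt_id s)).const_add (δ t)
      simpa [hΓ2] using this
    exact a.unique b
  have key := first_variation hG hsym cΓ t
  have hγeq : (fun t => Γ (0, t)) = γ := funext hΓ0
  rw [hγeq] at key
  rw [eγ t _ (by have := tanΓ (0, t) (1, 0); rwa [hΓ0] at this)] at key
  have k1 : (fun t => G (Γ (0, t)) (fderiv ℝ Γ (0, t) (0, 1)) (fderiv ℝ Γ (0, t) (1, 0)))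
      = fun t => (deriv δ t).2 := by
    funext t
    rw [hmet, dΓ2t, dΓ2s]
    simp [timesDtSq]
  have k2 : (fun s => G (Γ (s, t)) (fderiv ℝ Γ (s, t) (0, 1)) (fderiv ℝ Γ (s, t) (0, 1)))
      = fun _ => g (δ t).1 (deriv δ t).1 (deriv δ t).1 + (deriv δ t).2 * (deriv δ t).2 := by
    funext s
    rw [hmet, dΓ2t]
    simp [timesDtSq, hΓ2]
  rw [k1, k2] at key
  have k3 : deriv (fun t => (δ t).2) = fun t => (deriv δ t).2 := by
    funext t
    have := ((cδ.differentiable (by simp)).differentiableAt (x := t)).hasDerivAt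
    exact (hasFDerivAt_snd.comp_hasDerivAt t this).deriv
  rw [show (fun t => (Φ (γ t)).2) = fun t => (δ t).2 from rfl, k3]
  rw [deriv_const] at key
  linarith

/-- The unit vertical vector field. -/
lemma exists_unit {F : V → W} {G : V × ℝ → (V × ℝ) →L[ℝ] (V × ℝ) →L[ℝ] ℝ}
    {g : V → V →L[ℝ] V →L[ℝ] ℝ} {Φ Ψ : V × ℝ → V × ℝ}
    (hF : ContDiff ℝ ∞ F)
    (hΦ : ContDiff ℝ ∞ Φ) (hΨ : ContDiff ℝ ∞ Ψ)
    (h1 : ∀ p, timesLine F p = 0 → timesLine F (Φ p) = 0)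
    (h2 : ∀ q, timesLine F q = 0 → timesLine F (Ψ q) = 0)
    (h3 : ∀ p, timesLine F p = 0 → Ψ (Φ p) = p) (h4 : ∀ q, timesLine F q = 0 → Φ (Ψ q) = q)
    (h5 : ∀ p, timesLine F p = 0 → ∀ v w, IsTangent (timesLine F) p v →
      IsTangent (timesLine F) p w →
      timesDtSq g (Φ p) (fderiv ℝ Φ p v) (fderiv ℝ Φ p w) = G p v w)
    (q : V × ℝ) (hq : timesLine F q = 0) :
    ∃ X, IsTangent (timesLine F) q X ∧ G q X X = 1 ∧
      ∀ v, IsTangent (timesLine F) q v → G q v X = (fderiv ℝ Φ q v).2 := by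
  have cF : ContDiff ℝ ∞ (timesLine F) := hF.comp contDiff_fst
  set c : ℝ → V × ℝ := fun s => Φ q + (0, s) with hc
  have mc : ∀ s, timesLine F (c s) = 0 := by
    intro s
    have := h1 q hq
    simpa [timesLine, hc] using this
  have dc : HasDerivAt c ((0 : V), (1 : ℝ)) 0 :=
    ((hasDerivAt_const 0 (0 : V)).prodMk (hasDerivAt_id 0)).const_add (Φ q)
  have c0 : c 0 = Φ q := by simp [hc]
  set X := fderiv ℝ Ψ (Φ q) ((0 : V), (1 : ℝ)) with hX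
  have d1 : HasDerivAt (fun s => Ψ (c s)) X 0 := by
    have : HasFDerivAt Ψ (fderiv ℝ Ψ (c 0)) (c 0) :=
      (hΨ.differentiable (by simp)).differentiableAt.hasFDerivAt
    have := this.comp_hasDerivAt 0 dc
    rwa [c0] at this
  have e0 : Ψ (c 0) = q := by rw [c0]; exact h3 q hq
  have tX : IsTangent (timesLine F) q X := by
    have h : HasFDerivAt (timesLine F) (fderiv ℝ (timesLine F) (Ψ (c 0))) (Ψ (c 0)) :=
      (cF.differentiable (by simp)).differentiableAt.hasFDerivAt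
    have h' := h.comp_hasDerivAt 0 d1
    rw [e0] at h'
    have h'' : ((timesLine F) ∘ fun s => Ψ (c s)) = fun _ => 0 := funext fun s => h2 _ (mc s)
    rw [h''] at h'
    exact (h'.unique (hasDerivAt_const 0 (0 : W)))
  have hΦX : fderiv ℝ Φ q X = ((0 : V), (1 : ℝ)) := by
    have h : HasFDerivAt Φ (fderiv ℝ Φ (Ψ (c 0))) (Ψ (c 0)) :=
      (hΦ.differentiable (by simp)).differentiableAt.hasFDerivAt
    have h' := h.comp_hasDerivAt 0 d1
    rw [e0] at h'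
    have h'' : (Φ ∘ fun s => Ψ (c s)) = c := funext fun s => h4 _ (mc s)
    rw [h''] at h'
    exact h'.unique dc
  refine ⟨X, tX, ?_, ?_⟩
  · rw [← h5 q hq X X tX tX, hΦX]; simp [timesDtSq]
  · intro v hv
    rw [← h5 q hq v X hv tX, hΦX]; simp [timesDtSq]

end Pool.Agent.H847R2.Shear
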