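import Pool.Agent.H847R2.Shear.Example

/-! The cover `M × ℝ` with the lifted metric is not a Riemannian product `(M, g₁) × ℝ`. -/

namespace Pool.Agent.H847R2.Shear

open scoped ContDiff

/-- the unit complex number with argument `x` -/
noncomputable def ex (x : ℝ) : ℂ := Complex.exp ((x : ℂ) * Complex.I)

lemma ex_re (x : ℝ) : (ex x).re = Real.cos x := by simp [ex, Complex.exp_ofReal_mul_I_re]
lemma ex_im (x : ℝ) : (ex x).im = Real.sin x := by simp [ex, Complex.exp_ofReal_mul_I_im]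

lemma ex_eq (x : ℝ) : ex x = ⟨Real.cos x, Real.sin x⟩ := Complex.ext (ex_re x) (ex_im x)

lemma hasDerivAt_ex (m c s : ℝ) :
    HasDerivAt (fun s => ex (m * s + c)) (m * Complex.I * ex (m * s + c)) s := by
  have h : HasDerivAt (fun s : ℝ => (((m * s + c : ℝ) : ℂ) * Complex.I)) (m * Complex.I) s := by
    have h1 : HasDerivAt (fun s : ℝ => m * s + c) m s := by
      simpa using ((hasDerivAt_id s).const_mul m).add_const c
    exact (h1.ofReal_comp).mul_const Complex.I
  have := h.cexp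
  refine this.congr_deriv ?_
  simp only [ex]; ring

lemma contDiff_ex (m c : ℝ) : ContDiff ℝ ∞ (fun s => ex (m * s + c)) := by
  unfold ex
  have : ContDiff ℝ ∞ (fun s : ℝ => (((m * s + c : ℝ) : ℂ) * Complex.I)) := by
    have h1 : ContDiff ℝ ∞ (fun s : ℝ => m * s + c) :=
      (contDiff_const.mul contDiff_id).add contDiff_const
    exact (Complex.ofRealCLM.contDiff.comp h1).mul contDiff_const
  exact this.cexp

/-- explicit curves in `M × ℝ` -/
noncomputable def crv (m c : Fin 3 → ℝ) (κ t0 : ℝ) : ℝ → V3 × ℝ :=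
  fun s => (fun k => ex (m k * s + c k), κ * s + t0)

lemma crv_contDiff (m c : Fin 3 → ℝ) (κ t0 : ℝ) : ContDiff ℝ ∞ (crv m c κ t0) := by
  refine ContDiff.prodMk ?_ ?_
  · rw [contDiff_pi]; intro k; exact contDiff_ex _ _
  · exact (contDiff_const.mul contDiff_id).add contDiff_const

lemma crv_hasDerivAt (m c : Fin 3 → ℝ) (κ t0 s : ℝ) :
    HasDerivAt (crv m c κ t0) ((fun k => m k * Complex.I * ex (m k * s + c k)), κ) s := by
  refine HasDerivAt.prodMk ?_ ?_
  · rw [hasDerivAt_pi]; intro k; exact hasDerivAt_ex _ _ _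
  · simpa using ((hasDerivAt_id s).const_mul κ).add_const t0

lemma crv_hasDerivAt2 (m c : Fin 3 → ℝ) (κ t0 s : ℝ) :
    HasDerivAt (deriv (crv m c κ t0))
      ((fun k => -(m k) ^ 2 * ex (m k * s + c k)), 0) s := by
  have e : deriv (crv m c κ t0) = fun s => ((fun k => m k * Complex.I * ex (m k * s + c k)), κ) :=
    funext fun s => (crv_hasDerivAt m c κ t0 s).deriv
  rw [e]
  refine HasDerivAt.prodMk ?_ (hasDerivAt_const _ _)
  rw [hasDerivAt_pi]; intro k
  have := (hasDerivAt_ex (m k) (c k) s).const_mul (m k * Complex.I)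
  refine this.congr_deriv ?_
  linear_combination (m k : ℂ) ^ 2 * ex (m k * s + c k) * Complex.I_sq

lemma crv_mem (m c : Fin 3 → ℝ) (κ t0 : ℝ) (h : ∀ s, ∑ k, Real.cos (m k * s + c k) = 0) (s : ℝ) :
    timesLine F0 (crv m c κ t0 s) = 0 := by
  change F0 (fun k => ex (m k * s + c k)) = 0
  rw [F0_eq_zero_iff]
  refine ⟨fun k => ?_, ?_⟩
  · rw [Complex.normSq_apply, ex_re, ex_im]
    nlinarith [Real.sin_sq_add_cos_sq (m k * s + c k)]
  · simpa [ex_re] using h s

lemma crv_geodesic (m c : Fin 3 → ℝ) (κ t0 : ℝ) (h : ∀ s, ∑ k, Real.cos (m k * s + c k) = 0) :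
    IsGeodesic (timesLine F0) (pullback (cover V3) g0) (crv m c κ t0) := by
  refine ⟨crv_contDiff _ _ _ _, crv_mem m c κ t0 h, ?_⟩
  intro s w hw
  rw [tangent_timesLine_iff] at hw
  obtain ⟨hw1, -⟩ := hw
  rw [pullback_eq, eulerLagrange_sqForm, (crv_hasDerivAt2 m c κ t0 s).deriv,
    (crv_hasDerivAt m c κ t0 s).deriv, flatForm_apply]
  simp only [B2_apply, ContinuousLinearMap.coe_snd']
  have h0 : ∀ k, ip (-(m k) ^ 2 * ex (m k * s + c k)) (w.1 k) = 0 := by
    intro k
    have := hw1 k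
    change ip (ex (m k * s + c k)) (w.1 k) = 0 at this
    have e : (-(m k : ℂ) ^ 2 * ex (m k * s + c k)) = (-(m k) ^ 2 : ℝ) • ex (m k * s + c k) := by
      rw [Complex.real_smul]; push_cast; ring
    rw [e, map_smul, smul_apply, this, smul_zero]
  have hb : β ((crv m c κ t0 s).1 0) (-(m 0 : ℂ) ^ 2 * ex (m 0 * s + c 0)) = 0 := by
    change β (ex (m 0 * s + c 0)) _ = 0
    rw [show (-(m 0 : ℂ) ^ 2 * ex (m 0 * s + c 0)) = (-(m 0) ^ 2 : ℝ) • ex (m 0 * s + c 0) by
      rw [Complex.real_smul]; push_cast; ring]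
    rw [map_smul, β_apply]; simp; ring_nf; simp
  have hb2 : β (m 0 * Complex.I * ex (m 0 * s + c 0)) (m 0 * Complex.I * ex (m 0 * s + c 0)) = 0 := by
    rw [β_apply]; ring
  have hb3 : β (m 0 * Complex.I * ex (m 0 * s + c 0)) (w.1 0) = 0 := by
    have := hw1 0
    change ip (ex (m 0 * s + c 0)) (w.1 0) = 0 at this
    rw [ip_apply] at this
    rw [β_apply]
    simp only [Complex.mul_re, Complex.mul_im, Complex.ofReal_re, Complex.ofReal_im, Complex.I_re,
      Complex.I_im]
    linear_combination (-(m 0)) * this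
  have hb4 : β (w.1 0) (m 0 * Complex.I * ex (m 0 * s + c 0)) = 0 := by
    rw [β_apply] at hb3 ⊢
    linear_combination (-1 : ℝ) * hb3
  rw [Finset.sum_eq_zero (fun k _ => h0 k)]
  rw [hb, hb2, hb3, hb4]
  ring

lemma affine_of_deriv2 {f : ℝ → ℝ} (hf : ContDiff ℝ ∞ f) (h : ∀ t, deriv (deriv f) t = 0) (s : ℝ) :
    f s = f 0 + s * deriv f 0 := by
  have hd : Differentiable ℝ f := hf.differentiable (by simp)
  have hd' : Differentiable ℝ (deriv f) := by
    have : ContDiff ℝ ∞ (deriv f) := (contDiff_infty_iff_deriv.1 hf).2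
    exact this.differentiable (by simp)
  have hc : ∀ x, deriv f x = deriv f 0 := fun x => is_const_of_deriv_eq_zero hd' h x 0
  have hg : ∀ x, deriv (fun s => f s - s * deriv f 0) x = 0 := by
    intro x
    have := ((hd x).hasDerivAt.sub ((hasDerivAt_id x).mul_const (deriv f 0))).deriv
    rw [show (fun s => f s - s * deriv f 0) = f - (fun s => id s * deriv f 0) from rfl, this, hc x]
    ring
  have hdg : Differentiable ℝ (fun s => f s - s * deriv f 0) :=
    hd.sub (differentiable_id.mul_const _)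
  have := is_const_of_deriv_eq_zero hdg hg s 0
  linarith

theorem not_isometric (g : V3 → V3 →L[ℝ] V3 →L[ℝ] ℝ) :
    ¬ AreIsometric (timesLine F0) (pullback (cover V3) g0) (timesLine F0) (timesDtSq g) := by
  rintro ⟨Φ, Ψ, hΦ, hΨ, h1, h2, h3, h4, h5⟩
  have hG : ContDiff ℝ ∞ (pullback (cover V3) g0) := by
    rw [pullback_eq]; exact sqForm_contDiff _ _ _
  have hsym : ∀ p v w, pullback (cover V3) g0 p v w = pullback (cover V3) g0 p w v := by
    intro p v w
    rw [pullback_eq, sqForm_apply, sqForm_apply, flatForm_apply, flatForm_apply]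
    have : ∀ a b : ℂ, ip a b = ip b a := fun a b => by rw [ip_apply, ip_apply]; ring
    rw [Finset.sum_congr rfl fun k _ => this (v.1 k) (w.1 k)]
    ring
  set b : V3 × ℝ → ℝ := fun q => (Φ q).2 with hb
  have cb : ContDiff ℝ ∞ b := contDiff_snd.comp hΦ
  -- affine along curves
  have aff : ∀ m c κ t0, (∀ s, ∑ k, Real.cos (m k * s + c k) = 0) → ∀ s,
      b (crv m c κ t0 s) = b (crv m c κ t0 0) +
        s * fderiv ℝ b (crv m c κ t0 0) ((fun k => m k * Complex.I * ex (c k)), κ) := by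
    intro m c κ t0 h s
    have h0 := affine_of_isometric (g := g) F0_contDiff hG hsym hΦ hΨ h1 h2 h3 h4 h5
      (crv_geodesic m c κ t0 h)
    have hsm : ContDiff ℝ ∞ (fun t => b (crv m c κ t0 t)) := cb.comp (crv_contDiff _ _ _ _)
    have h6 := affine_of_deriv2 hsm h0 s
    have h7 : deriv (fun t => b (crv m c κ t0 t)) 0 =
        fderiv ℝ b (crv m c κ t0 0) ((fun k => m k * Complex.I * ex (c k)), κ) := by
      have hd : HasFDerivAt b (fderiv ℝ b (crv m c κ t0 0)) (crv m c κ t0 0) :=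
        (cb.differentiable (by simp)).differentiableAt.hasFDerivAt
      have := (hd.comp_hasDerivAt 0 (crv_hasDerivAt m c κ t0 0)).deriv
      simpa [Function.comp_def] using this
    rw [h6, h7]
  have hbd : ∀ q v, (fderiv ℝ Φ q v).2 = fderiv ℝ b q v := by
    intro q v
    have hd : HasFDerivAt b ((ContinuousLinearMap.snd ℝ V3 ℝ).comp (fderiv ℝ Φ q)) q :=
      (hasFDerivAt_snd (p := Φ q)).comp q
        ((hΦ.differentiable (by simp)).differentiableAt.hasFDerivAt)
    rw [hd.fderiv]; rfl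
  -- the four closed curves
  let m1 : Fin 3 → ℝ := ![1, -1, 0]
  let m2 : Fin 3 → ℝ := ![1, 1, 0]
  let m3 : Fin 3 → ℝ := ![0, 1, -1]
  let m4 : Fin 3 → ℝ := ![0, 1, 1]
  let cP : Fin 3 → ℝ := ![Real.pi, 0, Real.pi / 2]
  let cR : Fin 3 → ℝ := ![Real.pi / 2, Real.pi, 0]
  have k1 : ∀ s, ∑ k, Real.cos (m1 k * s + cP k) = 0 := by
    intro s; simp [Fin.sum_univ_three, m1, cP, Real.cos_add_pi]
  have k2 : ∀ s, ∑ k, Real.cos (m2 k * s + cP k) = 0 := by
    intro s; simp [Fin.sum_univ_three, m2, cP, Real.cos_add_pi]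
  have k3 : ∀ s, ∑ k, Real.cos (m3 k * s + cR k) = 0 := by
    intro s; simp [Fin.sum_univ_three, m3, cR, Real.cos_add_pi]
  have k4 : ∀ s, ∑ k, Real.cos (m4 k * s + cR k) = 0 := by
    intro s; simp [Fin.sum_univ_three, m4, cR, Real.cos_add_pi]
  let P : V3 := fun k => ex (cP k)
  let R : V3 := fun k => ex (cR k)
  let Q : V3 := fun _ => ex (Real.pi / 2)
  -- vertical lines: b (z, t) = b (z, 0) + t * C z
  have vert : ∀ c : Fin 3 → ℝ, (∑ k, Real.cos (c k) = 0) → ∀ t,
      b ((fun k => ex (c k)), t) = b ((fun k => ex (c k)), 0) +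
        t * (b ((fun k => ex (c k)), 1) - b ((fun k => ex (c k)), 0)) := by
    intro c hc t
    have h0 := fun s => aff 0 c 1 0 (by intro s; simpa using hc) s
    have e : ∀ s, crv 0 c 1 0 s = ((fun k => ex (c k)), s) := by intro s; simp [crv]
    simp only [e] at h0
    have h01 := h0 1
    have h0t := h0 t
    rw [h0t]
    have : b ((fun k => ex (c k)), 1) - b ((fun k => ex (c k)), 0)
      = fderiv ℝ b ((fun k => ex (c k)), 0) ((fun k => ((0 : Fin 3 → ℝ) k : ℂ) * Complex.I * ex (c k)), 1)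
      := by rw [h01]; ring
    rw [this]
  -- `C` is constant along each closed line
  have constC : ∀ m c : Fin 3 → ℝ, (∀ s, ∑ k, Real.cos (m k * s + c k) = 0) →
      (∀ k, ∃ n : ℤ, m k = n) → ∀ s,
      b ((fun k => ex (m k * s + c k)), 1) - b ((fun k => ex (m k * s + c k)), 0)
        = b ((fun k => ex (c k)), 1) - b ((fun k => ex (c k)), 0) := by
    intro m c h hm s
    have a1 := aff m c 0 1 h
    have a0 := aff m c 0 0 h
    have e1 : ∀ s, crv m c 0 1 s = ((fun k => ex (m k * s + c k)), 1) := by intro s; simp [crv]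
    have e0 : ∀ s, crv m c 0 0 s = ((fun k => ex (m k * s + c k)), 0) := by intro s; simp [crv]
    simp only [e1] at a1
    simp only [e0] at a0
    have per : (fun k => ex (m k * (2 * Real.pi) + c k)) = fun k => ex (m k * 0 + c k) := by
      funext k
      obtain ⟨n, hn⟩ := hm k
      rw [hn, ex_eq, ex_eq]
      have : (n : ℝ) * (2 * Real.pi) + c k = c k + n * (2 * Real.pi) := by ring
      rw [this, Real.cos_add_int_mul_two_pi, Real.sin_add_int_mul_two_pi]
      simp
    have a1p := a1 (2 * Real.pi)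
    have a0p := a0 (2 * Real.pi)
    rw [per] at a1p a0p
    have hpi : (2 * Real.pi) ≠ 0 := by positivity
    have z1 : fderiv ℝ b ((fun k => ex (m k * 0 + c k)), 1)
        ((fun k => m k * Complex.I * ex (c k)), 0) = 0 := by
      have : 2 * Real.pi * fderiv ℝ b ((fun k => ex (m k * 0 + c k)), 1)
        ((fun k => m k * Complex.I * ex (c k)), 0) = 0 := by linarith
      exact (mul_eq_zero.1 this).resolve_left hpi
    have z0 : fderiv ℝ b ((fun k => ex (m k * 0 + c k)), 0)
        ((fun k => m k * Complex.I * ex (c k)), 0) = 0 := by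
      have : 2 * Real.pi * fderiv ℝ b ((fun k => ex (m k * 0 + c k)), 0)
        ((fun k => m k * Complex.I * ex (c k)), 0) = 0 := by linarith
      exact (mul_eq_zero.1 this).resolve_left hpi
    have q1 := a1 s
    have q0 := a0 s
    rw [z1] at q1
    rw [z0] at q0
    rw [q1, q0]
    simp
  have hQP : b (Q, 1) - b (Q, 0) = b (P, 1) - b (P, 0) := by
    have := constC m1 cP k1 (by
      intro k
      fin_cases k
      · exact ⟨1, by simp [m1]⟩
      · exact ⟨-1, by simp [m1]⟩
      · exact ⟨0, by simp [m1]⟩) (-(Real.pi / 2))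
    have e : (fun k => ex (m1 k * (-(Real.pi / 2)) + cP k)) = Q := by
      funext k
      fin_cases k
      · simp [m1, cP, Q]; ring_nf
      · simp [m1, cP, Q]
      · simp [m1, cP, Q]
    rw [e] at this
    exact this
  have hQR : b (Q, 1) - b (Q, 0) = b (R, 1) - b (R, 0) := by
    have := constC m3 cR k3 (by
      intro k
      fin_cases k
      · exact ⟨0, by simp [m3]⟩
      · exact ⟨1, by simp [m3]⟩
      · exact ⟨-1, by simp [m3]⟩) (-(Real.pi / 2))
    have e : (fun k => ex (m3 k * (-(Real.pi / 2)) + cR k)) = Q := by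
      funext k
      fin_cases k
      · simp [m3, cR, Q]
      · simp [m3, cR, Q]; ring_nf
      · simp [m3, cR, Q]
    rw [e] at this
    exact this
  set C := b (P, 1) - b (P, 0) with hC
  have hCR : b (R, 1) - b (R, 0) = C := by rw [← hQR, hQP]
  -- values of the coordinates
  have P0 : P 0 = -1 := by simp [P, cP, ex_eq, Complex.ext_iff]
  have P1 : P 1 = 1 := by simp [P, cP, ex_eq, Complex.ext_iff]
  have P2 : P 2 = Complex.I := by simp [P, cP, ex_eq, Complex.ext_iff]
  have R0 : R 0 = Complex.I := by simp [R, cR, ex_eq, Complex.ext_iff]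
  have R1 : R 1 = -1 := by simp [R, cR, ex_eq, Complex.ext_iff]
  have R2 : R 2 = 1 := by simp [R, cR, ex_eq, Complex.ext_iff]
  have hcP : ∑ k, Real.cos (cP k) = 0 := by simpa using k1 0
  have hcR : ∑ k, Real.cos (cR k) = 0 := by simpa using k3 0
  have memP : timesLine F0 (P, (0 : ℝ)) = 0 := by
    have := crv_mem m1 cP 0 0 k1 0
    simpa [crv] using this
  have memR : timesLine F0 (R, (0 : ℝ)) = 0 := by
    have := crv_mem m3 cR 0 0 k3 0
    simpa [crv] using this
  -- derivatives of b at P in three directions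
  have per : ∀ m c : Fin 3 → ℝ, (∀ k, ∃ n : ℤ, m k = n) →
      (fun k => ex (m k * (2 * Real.pi) + c k)) = fun k => ex (c k) := by
    intro m c hm
    funext k
    obtain ⟨n, hn⟩ := hm k
    rw [hn, ex_eq, ex_eq]
    have : (n : ℝ) * (2 * Real.pi) + c k = c k + n * (2 * Real.pi) := by ring
    rw [this, Real.cos_add_int_mul_two_pi, Real.sin_add_int_mul_two_pi]
  have slope : ∀ m c : Fin 3 → ℝ, (∀ s, ∑ k, Real.cos (m k * s + c k) = 0) →
      (∀ k, ∃ n : ℤ, m k = n) → ∀ κ : ℝ,
      fderiv ℝ b ((fun k => ex (c k)), 0) ((fun k => m k * Complex.I * ex (c k)), κ)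
        = κ * (b ((fun k => ex (c k)), 1) - b ((fun k => ex (c k)), 0)) := by
    intro m c h hm κ
    have a0 := aff m c κ 0 h (2 * Real.pi)
    have e0 : crv m c κ 0 0 = ((fun k => ex (c k)), 0) := by simp [crv]
    have e1 : crv m c κ 0 (2 * Real.pi) = ((fun k => ex (c k)), κ * (2 * Real.pi)) := by
      rw [← per m c hm]; simp [crv]
    rw [e0, e1] at a0
    have v := vert c (by simpa using h 0) (κ * (2 * Real.pi))
    have hpi : (2 * Real.pi) ≠ 0 := by positivity
    have : 2 * Real.pi * fderiv ℝ b ((fun k => ex (c k)), 0)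
        ((fun k => m k * Complex.I * ex (c k)), κ)
        = 2 * Real.pi * (κ * (b ((fun k => ex (c k)), 1) - b ((fun k => ex (c k)), 0))) := by
      linarith
    exact mul_left_cancel₀ hpi this
  have tanc : ∀ m c : Fin 3 → ℝ, (∀ s, ∑ k, Real.cos (m k * s + c k) = 0) → ∀ κ : ℝ,
      IsTangent (timesLine F0) ((fun k => ex (c k)), (0 : ℝ))
        ((fun k => m k * Complex.I * ex (c k)), κ) := by
    intro m c h κ
    rw [tangent_timesLine_iff]
    refine ⟨fun k => ?_, ?_⟩
    · change ip (ex (c k)) (m k * Complex.I * ex (c k)) = 0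
      rw [ip_apply]
      simp only [Complex.mul_re, Complex.mul_im, Complex.ofReal_re, Complex.ofReal_im,
        Complex.I_re, Complex.I_im]
      ring
    · have hd : HasDerivAt (fun s => ∑ k, Real.cos (m k * s + c k))
          (∑ k, -Real.sin (m k * 0 + c k) * m k) 0 := by
        apply HasDerivAt.fun_sum
        intro k _
        have : HasDerivAt (fun s : ℝ => m k * s + c k) (m k) 0 := by
          simpa using ((hasDerivAt_id (0 : ℝ)).const_mul (m k)).add_const (c k)
        exact this.cos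
      have hz : (fun s => ∑ k, Real.cos (m k * s + c k)) = fun _ => 0 := funext h
      rw [hz] at hd
      have h0 := hd.unique (hasDerivAt_const (0 : ℝ) (0 : ℝ))
      simp only [mul_zero, zero_add] at h0
      rw [← h0]
      apply Finset.sum_congr rfl
      intro k _
      simp only [Complex.mul_re, Complex.mul_im, Complex.ofReal_re, Complex.ofReal_im,
        Complex.I_re, Complex.I_im, ex_im, ex_re]
      ring
  have hint1 : ∀ k, ∃ n : ℤ, m1 k = n := by
    intro k
    fin_cases k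
    · exact ⟨1, by simp [m1]⟩
    · exact ⟨-1, by simp [m1]⟩
    · exact ⟨0, by simp [m1]⟩
  have hint2 : ∀ k, ∃ n : ℤ, m2 k = n := by
    intro k
    fin_cases k
    · exact ⟨1, by simp [m2]⟩
    · exact ⟨1, by simp [m2]⟩
    · exact ⟨0, by simp [m2]⟩
  have hint3 : ∀ k, ∃ n : ℤ, m3 k = n := by
    intro k
    fin_cases k
    · exact ⟨0, by simp [m3]⟩
    · exact ⟨1, by simp [m3]⟩
    · exact ⟨-1, by simp [m3]⟩
  have hint4 : ∀ k, ∃ n : ℤ, m4 k = n := by
    intro k
    fin_cases k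
    · exact ⟨0, by simp [m4]⟩
    · exact ⟨1, by simp [m4]⟩
    · exact ⟨1, by simp [m4]⟩
  -- unit vector at P
  obtain ⟨X, tX, nX, gX⟩ := exists_unit (g := g) F0_contDiff hΦ hΨ h1 h2 h3 h4 h5 (P, 0) memP
  obtain ⟨Y, tY, nY, gY⟩ := exists_unit (g := g) F0_contDiff hΦ hΨ h1 h2 h3 h4 h5 (R, 0) memR
  have s1 := slope m1 cP k1 hint1 (-1)
  have s2 := slope m2 cP k2 hint2 (-1)
  have s0 := slope 0 cP (by intro s; simpa using hcP) (fun k => ⟨0, by simp⟩) 1
  have r3 := slope m3 cR k3 hint3 0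
  have r4 := slope m4 cR k4 hint4 0
  have r0 := slope 0 cR (by intro s; simpa using hcR) (fun k => ⟨0, by simp⟩) 1
  change _ = _ * C at s1
  change _ = _ * C at s2
  change _ = _ * C at s0
  change _ = _ * (b (R, 1) - b (R, 0)) at r3
  change _ = _ * (b (R, 1) - b (R, 0)) at r4
  change _ = _ * (b (R, 1) - b (R, 0)) at r0
  rw [hCR] at r3 r4 r0
  rw [← hbd] at s1 s2 s0 r3 r4 r0
  have t1 := gX _ (tanc m1 cP k1 (-1))
  have t2 := gX _ (tanc m2 cP k2 (-1))
  have t0 := gX _ (tanc 0 cP (by intro s; simpa using hcP) 1)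
  have u3 := gY _ (tanc m3 cR k3 0)
  have u4 := gY _ (tanc m4 cR k4 0)
  have u0 := gY _ (tanc 0 cR (by intro s; simpa using hcR) 1)
  rw [s1] at t1
  rw [s2] at t2
  rw [s0] at t0
  rw [r3] at u3
  rw [r4] at u4
  rw [r0] at u0
  rw [tangent_timesLine_iff] at tX tY
  obtain ⟨tX1, tX2⟩ := tX
  obtain ⟨tY1, tY2⟩ := tY
  have x0 := tX1 0
  have x1 := tX1 1
  have x2 := tX1 2
  have y0 := tY1 0
  have y1 := tY1 1
  have y2 := tY1 2
  simp only [P0, P1, P2, R0, R1, R2, ip_apply] at x0 x1 x2 y0 y1 y2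
  rw [Fin.sum_univ_three] at tX2 tY2
  have exP : ∀ k, ex (cP k) = P k := fun _ => rfl
  have exR : ∀ k, ex (cR k) = R k := fun _ => rfl
  rw [pullback_eq] at t1 t2 t0 u3 u4 u0 nX nY
  rw [sqForm_apply, flatForm_apply, Fin.sum_univ_three] at t1 t2 t0 u3 u4 u0 nX nY
  simp only [B2_apply, β_apply, ip_apply, exP, exR, P0, P1, P2, R0, R1, R2, m1, m2, m3, m4,
    ContinuousLinearMap.coe_snd', Matrix.cons_val_zero, Matrix.cons_val_one, Matrix.cons_val,
    Pi.zero_apply] at t1 t2 t0 u3 u4 u0 nX nY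
  simp at x0 x1 x2 y0 y1 y2 t1 t2 t0 u3 u4 u0 nX nY
  have a1 : (X.1 1).im = 0 := by linarith
  have a0 : (X.1 0).im = C := by linarith
  have a2 : (X.1 2).re = 0 := by linarith
  have c1 : (Y.1 1).im = 0 := by linarith
  have c2 : (Y.1 2).im = 0 := by linarith
  have c0 : (Y.1 0).re = 0 := by linarith
  rw [t0, x0, x1, x2, a0, a1, a2] at nX
  rw [u0, y0, y1, y2, c0, c1, c2] at nY
  linarith

end Pool.Agent.H847R2.Shear
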