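import Pool.Agent.H847R2.Shear.Example
import Pool.Agent.H847R2.Shear.NonSplit

/-! The metric `g0` on `M × S¹` has no conjugate points. -/

namespace Pool.Agent.H847R2.Shear

open scoped ContDiff

/-- The algebraic form of: the surface `cos x + cos y + cos z = 0` has curvature `≤ 0`. -/
lemma key_ineq (c0 c1 c2 n0 n1 n2 v0 v1 v2 J0 J1 J2 : ℝ) (hc : c0 + c1 + c2 = 0)
    (h0 : c0 ^ 2 + n0 ^ 2 = 1) (h1 : c1 ^ 2 + n1 ^ 2 = 1) (h2 : c2 ^ 2 + n2 ^ 2 = 1)
    (hv : n0 * v0 + n1 * v1 + n2 * v2 = 0) (hJ : n0 * J0 + n1 * J1 + n2 * J2 = 0)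
    (hN : 0 < n0 ^ 2 + n1 ^ 2 + n2 ^ 2) :
    (c0 * v0 ^ 2 + c1 * v1 ^ 2 + c2 * v2 ^ 2) * (c0 * J0 ^ 2 + c1 * J1 ^ 2 + c2 * J2 ^ 2)
      ≤ (c0 * v0 * J0 + c1 * v1 * J1 + c2 * v2 * J2) ^ 2 := by
  set X0 := v1 * J2 - v2 * J1 with hX0
  set X1 := v2 * J0 - v0 * J2 with hX1
  set X2 := v0 * J1 - v1 * J0 with hX2
  set N := n0 ^ 2 + n1 ^ 2 + n2 ^ 2 with hNdef
  set K := X0 * n0 + X1 * n1 + X2 * n2 with hK
  have e0 : X0 * N = K * n0 := by
    rw [hK, hNdef, hX0, hX1, hX2]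
    linear_combination (n1 * J2 - n2 * J1) * hv + (n2 * v1 - n1 * v2) * hJ
  have e1 : X1 * N = K * n1 := by
    rw [hK, hNdef, hX0, hX1, hX2]
    linear_combination (n2 * J0 - n0 * J2) * hv + (n0 * v2 - n2 * v0) * hJ
  have e2 : X2 * N = K * n2 := by
    rw [hK, hNdef, hX0, hX1, hX2]
    linear_combination (n0 * J1 - n1 * J0) * hv + (n1 * v0 - n0 * v1) * hJ
  have L : (c0 * v0 * J0 + c1 * v1 * J1 + c2 * v2 * J2) ^ 2
      - (c0 * v0 ^ 2 + c1 * v1 ^ 2 + c2 * v2 ^ 2) * (c0 * J0 ^ 2 + c1 * J1 ^ 2 + c2 * J2 ^ 2)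
      = -(c0 * c1 * X2 ^ 2 + c1 * c2 * X0 ^ 2 + c0 * c2 * X1 ^ 2) := by
    rw [hX0, hX1, hX2]; ring
  have M : (c0 * c1 * X2 ^ 2 + c1 * c2 * X0 ^ 2 + c0 * c2 * X1 ^ 2) * N ^ 2
      = K ^ 2 * (c0 * c1 * n2 ^ 2 + c1 * c2 * n0 ^ 2 + c0 * c2 * n1 ^ 2) := by
    have : (c0 * c1 * X2 ^ 2 + c1 * c2 * X0 ^ 2 + c0 * c2 * X1 ^ 2) * N ^ 2
      = c0 * c1 * (X2 * N) ^ 2 + c1 * c2 * (X0 * N) ^ 2 + c0 * c2 * (X1 * N) ^ 2 := by ring
    rw [this, e0, e1, e2]; ring
  have P : c0 * c1 * n2 ^ 2 + c1 * c2 * n0 ^ 2 + c0 * c2 * n1 ^ 2 ≤ 0 := by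
    have hn0 : n0 ^ 2 = 1 - c0 ^ 2 := by linarith
    have hn1 : n1 ^ 2 = 1 - c1 ^ 2 := by linarith
    have hn2 : n2 ^ 2 = 1 - c2 ^ 2 := by linarith
    have hc2 : c2 = -c0 - c1 := by linarith
    rw [hn0, hn1, hn2, hc2]
    have e : c0 * c1 * (1 - (-c0 - c1) ^ 2) + c1 * (-c0 - c1) * (1 - c0 ^ 2)
        + c0 * (-c0 - c1) * (1 - c1 ^ 2) = -((c0 + c1) ^ 2 + c0 ^ 2 + c1 ^ 2) / 2 := by ring
    rw [e]
    have := sq_nonneg (c0 + c1)
    have := sq_nonneg c0
    have := sq_nonneg c1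
    linarith
  have Q : (c0 * c1 * X2 ^ 2 + c1 * c2 * X0 ^ 2 + c0 * c2 * X1 ^ 2) ≤ 0 := by
    by_contra hcon
    push Not at hcon
    have h1 : 0 < (c0 * c1 * X2 ^ 2 + c1 * c2 * X0 ^ 2 + c0 * c2 * X1 ^ 2) * N ^ 2 := by positivity
    rw [M] at h1
    have h2 := mul_nonneg (sq_nonneg K) (neg_nonneg.2 P)
    linarith
  linarith

/-- Uniqueness for linear ODEs. -/
lemma linear_ode_unique {E : Type*} [NormedAddCommGroup E] [NormedSpace ℝ E]
    (A : ℝ → E →L[ℝ] E) (hA : Continuous A) (x : ℝ → E)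
    (hx : ∀ t, HasDerivAt x (A t (x t)) t) (t0 : ℝ) (h0 : x t0 = 0) (t : ℝ) : x t = 0 := by
  obtain ⟨a, b, ha, hb, hat, hbt⟩ : ∃ a b, a < t0 ∧ t0 < b ∧ a < t ∧ t < b :=
    ⟨min t0 t - 1, max t0 t + 1, by
      have := min_le_left t0 t; linarith, by have := le_max_left t0 t; linarith, by
      have := min_le_right t0 t; linarith, by have := le_max_right t0 t; linarith⟩
  obtain ⟨K, hK⟩ := (isCompact_Icc (a := a) (b := b)).exists_bound_of_continuousOn
    (f := A) hA.continuousOn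
  have hL : ∀ s ∈ Set.Ioo a b, LipschitzOnWith (Real.toNNReal K) (fun y => A s y) Set.univ := by
    intro s hs
    refine LipschitzWith.lipschitzOnWith ?_
    refine (A s).lipschitz.weaken ?_
    rw [← NNReal.coe_le_coe, coe_nnnorm]
    exact (hK s ⟨hs.1.le, hs.2.le⟩).trans (Real.le_coe_toNNReal K)
  have := ODE_solution_unique_of_mem_Ioo (v := fun s y => A s y) (s := fun _ => Set.univ)
    (K := Real.toNNReal K) (a := a) (b := b) (t₀ := t0) (f := x) (g := fun _ => 0)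
    hL ⟨ha, hb⟩ (fun s _ => ⟨hx s, Set.mem_univ _⟩)
    (fun s _ => ⟨by simpa using hasDerivAt_const s (0 : E), Set.mem_univ _⟩) h0
  exact this ⟨hat, hbt⟩

/-- partial derivative in the second variable `t` -/
noncomputable def pt {E : Type*} [NormedAddCommGroup E] [NormedSpace ℝ E] (f : ℝ × ℝ → E) :
    ℝ × ℝ → E := fun q => fderiv ℝ f q (0, 1)

/-- partial derivative in the first variable `s` -/
noncomputable def ps {E : Type*} [NormedAddCommGroup E] [NormedSpace ℝ E] (f : ℝ × ℝ → E) :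
    ℝ × ℝ → E := fun q => fderiv ℝ f q (1, 0)

section partials

variable {E : Type*} [NormedAddCommGroup E] [NormedSpace ℝ E] {f : ℝ × ℝ → E}

lemma pt_contDiff (hf : ContDiff ℝ ∞ f) : ContDiff ℝ ∞ (pt f) := contDiff_fderiv_apply hf _
lemma ps_contDiff (hf : ContDiff ℝ ∞ f) : ContDiff ℝ ∞ (ps f) := contDiff_fderiv_apply hf _
lemma pt_hasDerivAt (hf : ContDiff ℝ ∞ f) (q : ℝ × ℝ) :
    HasDerivAt (fun t => f (q.1, t)) (pt f q) q.2 := hasDerivAt_snd hf q.1 q.2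
lemma ps_hasDerivAt (hf : ContDiff ℝ ∞ f) (q : ℝ × ℝ) :
    HasDerivAt (fun s => f (s, q.2)) (ps f q) q.1 := hasDerivAt_fst hf q.1 q.2
lemma pt_ps (hf : ContDiff ℝ ∞ f) (q : ℝ × ℝ) : pt (ps f) q = ps (pt f) q := mixed hf _ _ _

end partials

lemma β_self (u : ℂ) : β u u = 0 := by rw [β_apply]; ring

lemma β_zero_of_perp {f a b : ℂ} (h : Complex.normSq f = 1) (ha : ip f a = 0) (hb : ip f b = 0) :
    β a b = 0 := by
  rw [Complex.normSq_apply] at h
  rw [ip_apply] at ha hb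
  rw [β_apply]
  linear_combination (f.re * b.im - f.im * b.re) * ha + (f.im * a.re - f.re * a.im) * hb
    - (a.re * b.im - a.im * b.re) * h

lemma re_of_perp {f a : ℂ} (h : Complex.normSq f = 1) (ha : ip f a = 0) :
    a.re = -(β f a) * f.im := by
  rw [Complex.normSq_apply] at h
  rw [ip_apply] at ha
  rw [β_apply]
  linear_combination f.re * ha - a.re * h

lemma im_of_perp {f a : ℂ} (h : Complex.normSq f = 1) (ha : ip f a = 0) :
    a.im = (β f a) * f.re := by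
  rw [Complex.normSq_apply] at h
  rw [ip_apply] at ha
  rw [β_apply]
  linear_combination f.im * ha - a.im * h

section angle

variable {f : ℝ × ℝ → ℂ} (hf : ContDiff ℝ ∞ f) {ε : ℝ}
  (hn : ∀ s t, |s| < ε → Complex.normSq (f (s, t)) = 1)

/-- angular velocity in the direction `t` -/
noncomputable def vt (f : ℝ × ℝ → ℂ) : ℝ × ℝ → ℝ := fun q => β (f q) (pt f q)

/-- angular velocity in the direction `s` -/
noncomputable def vs (f : ℝ × ℝ → ℂ) : ℝ × ℝ → ℝ := fun q => β (f q) (ps f q)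

include hf in
lemma vt_contDiff : ContDiff ℝ ∞ (vt f) := by
  have h : ContDiff ℝ ∞ (fun q => β (f q)) := β.contDiff.comp hf
  exact h.clm_apply (pt_contDiff hf)

include hf in
lemma vs_contDiff : ContDiff ℝ ∞ (vs f) := by
  have h : ContDiff ℝ ∞ (fun q => β (f q)) := β.contDiff.comp hf
  exact h.clm_apply (ps_contDiff hf)

include hf in
lemma re_contDiff : ContDiff ℝ ∞ (fun q => (f q).re) := Complex.reCLM.contDiff.comp hf

include hf in
lemma im_contDiff : ContDiff ℝ ∞ (fun q => (f q).im) := Complex.imCLM.contDiff.comp hf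

include hf in
lemma pt_re (q : ℝ × ℝ) : pt (fun q => (f q).re) q = (pt f q).re :=
  (pt_hasDerivAt (re_contDiff hf) q).unique
    (HasFDerivAt.comp_hasDerivAt (l := Complex.reCLM) (l' := Complex.reCLM) q.2
      Complex.reCLM.hasFDerivAt (pt_hasDerivAt hf q))

include hf in
lemma pt_im (q : ℝ × ℝ) : pt (fun q => (f q).im) q = (pt f q).im :=
  (pt_hasDerivAt (im_contDiff hf) q).unique
    (HasFDerivAt.comp_hasDerivAt (l := Complex.imCLM) (l' := Complex.imCLM) q.2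
      Complex.imCLM.hasFDerivAt (pt_hasDerivAt hf q))

include hf in
lemma ps_re (q : ℝ × ℝ) : ps (fun q => (f q).re) q = (ps f q).re :=
  (ps_hasDerivAt (re_contDiff hf) q).unique
    (HasFDerivAt.comp_hasDerivAt (l := Complex.reCLM) (l' := Complex.reCLM) q.1
      Complex.reCLM.hasFDerivAt (ps_hasDerivAt hf q))

include hf in
lemma ps_im (q : ℝ × ℝ) : ps (fun q => (f q).im) q = (ps f q).im :=
  (ps_hasDerivAt (im_contDiff hf) q).unique
    (HasFDerivAt.comp_hasDerivAt (l := Complex.imCLM) (l' := Complex.imCLM) q.1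
      Complex.imCLM.hasFDerivAt (ps_hasDerivAt hf q))

include hf hn in
lemma ip_pt (s t : ℝ) (hs : |s| < ε) : ip (f (s, t)) (pt f (s, t)) = 0 := by
  have hr := pt_hasDerivAt (re_contDiff hf) (s, t)
  have hi := pt_hasDerivAt (im_contDiff hf) (s, t)
  have h := (hr.mul hr).add (hi.mul hi)
  have e : ((fun t => (f (s, t)).re) * (fun t => (f (s, t)).re)) +
      ((fun t => (f (s, t)).im) * (fun t => (f (s, t)).im)) = fun _ => (1 : ℝ) := by
    funext t
    have := hn s t hs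
    rw [Complex.normSq_apply] at this
    exact this
  have h2 := (h.congr_of_eventuallyEq (f₁ := fun _ => (1 : ℝ))
    (Filter.Eventually.of_forall fun t => (congrFun e t).symm)).unique (hasDerivAt_const t (1 : ℝ))
  rw [pt_re hf, pt_im hf] at h2
  rw [ip_apply]
  simp only at h2
  linarith

include hf hn in
lemma ip_ps (s t : ℝ) (hs : |s| < ε) : ip (f (s, t)) (ps f (s, t)) = 0 := by
  have hr := ps_hasDerivAt (re_contDiff hf) (s, t)
  have hi := ps_hasDerivAt (im_contDiff hf) (s, t)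
  have h := (hr.mul hr).add (hi.mul hi)
  have e : ∀ᶠ s' in nhds s, (fun _ => (1 : ℝ)) s' = (((fun s => (f (s, t)).re) * (fun s => (f (s, t)).re)) +
      ((fun s => (f (s, t)).im) * (fun s => (f (s, t)).im))) s' := by
    have ho : IsOpen {s' : ℝ | |s'| < ε} := isOpen_lt continuous_abs continuous_const
    filter_upwards [ho.mem_nhds hs] with s' hs'
    have := hn s' t hs'
    rw [Complex.normSq_apply] at this
    exact this.symm
  have h2 := (h.congr_of_eventuallyEq e).unique (hasDerivAt_const s (1 : ℝ))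
  rw [ps_re hf, ps_im hf] at h2
  rw [ip_apply]
  simp only at h2
  linarith

include hf hn in
lemma pt_re' (s t : ℝ) (hs : |s| < ε) :
    pt (fun q => (f q).re) (s, t) = -(vt f (s, t)) * (f (s, t)).im := by
  rw [pt_re hf]; exact re_of_perp (hn s t hs) (ip_pt hf hn s t hs)

include hf hn in
lemma pt_im' (s t : ℝ) (hs : |s| < ε) :
    pt (fun q => (f q).im) (s, t) = (vt f (s, t)) * (f (s, t)).re := by
  rw [pt_im hf]; exact im_of_perp (hn s t hs) (ip_pt hf hn s t hs)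

include hf hn in
lemma ps_re' (s t : ℝ) (hs : |s| < ε) :
    ps (fun q => (f q).re) (s, t) = -(vs f (s, t)) * (f (s, t)).im := by
  rw [ps_re hf]; exact re_of_perp (hn s t hs) (ip_ps hf hn s t hs)

include hf hn in
lemma ps_im' (s t : ℝ) (hs : |s| < ε) :
    ps (fun q => (f q).im) (s, t) = (vs f (s, t)) * (f (s, t)).re := by
  rw [ps_im hf]; exact im_of_perp (hn s t hs) (ip_ps hf hn s t hs)

include hf in
lemma pt_vt (q : ℝ × ℝ) : pt (vt f) q = β (f q) (pt (pt f) q) := by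
  have h1 : HasDerivAt (fun t => β (f (q.1, t))) (β (pt f q)) q.2 :=
    (β.hasFDerivAt (x := f q)).comp_hasDerivAt q.2 (pt_hasDerivAt hf q)
  have h2 := h1.clm_apply (pt_hasDerivAt (pt_contDiff hf) q)
  have := (pt_hasDerivAt (vt_contDiff hf) q).unique h2
  rw [this]
  simp [β_self]

include hf hn in
lemma ps_vt (s t : ℝ) (hs : |s| < ε) : ps (vt f) (s, t) = pt (vs f) (s, t) := by
  have h1 : HasDerivAt (fun s => β (f (s, t))) (β (ps f (s, t))) s :=
    (β.hasFDerivAt (x := f (s, t))).comp_hasDerivAt s (ps_hasDerivAt hf (s, t))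
  have h2 := h1.clm_apply (ps_hasDerivAt (pt_contDiff hf) (s, t))
  have h3 : HasDerivAt (fun t => β (f (s, t))) (β (pt f (s, t))) t :=
    (β.hasFDerivAt (x := f (s, t))).comp_hasDerivAt t (pt_hasDerivAt hf (s, t))
  have h4 := h3.clm_apply (pt_hasDerivAt (ps_contDiff hf) (s, t))
  have e1 := (ps_hasDerivAt (vt_contDiff hf) (s, t)).unique h2
  have e2 := (pt_hasDerivAt (vs_contDiff hf) (s, t)).unique h4
  rw [e1, e2]
  change β (ps f (s, t)) (pt f (s, t)) + β (f (s, t)) (ps (pt f) (s, t)) =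
    β (pt f (s, t)) (ps f (s, t)) + β (f (s, t)) (pt (ps f) (s, t))
  rw [pt_ps hf, β_zero_of_perp (hn s t hs) (ip_ps hf hn s t hs) (ip_pt hf hn s t hs),
    β_zero_of_perp (hn s t hs) (ip_pt hf hn s t hs) (ip_ps hf hn s t hs)]

end angle

end Pool.Agent.H847R2.Shear
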