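import Pool.Agent.H847R2.Shear.NoConj

namespace Pool.Agent.H847R2.Shear

open scoped ContDiff

section

variable {Γ : ℝ × ℝ → V3 × ℂ} (hΓ : ContDiff ℝ ∞ Γ) {ε : ℝ}
  (hgeo : ∀ s, |s| < ε → IsGeodesic (timesCircle F0) g0 (fun t => Γ (s, t)))

/-- components of the variation -/
noncomputable def zc (Γ : ℝ × ℝ → V3 × ℂ) (k : Fin 3) : ℝ × ℝ → ℂ := fun q => (Γ q).1 k
noncomputable def wc (Γ : ℝ × ℝ → V3 × ℂ) : ℝ × ℝ → ℂ := fun q => (Γ q).2

include hΓ in
lemma zc_contDiff (k : Fin 3) : ContDiff ℝ ∞ (zc Γ k) := (prV k ℂ).contDiff.comp hΓ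

include hΓ in
lemma wc_contDiff : ContDiff ℝ ∞ (wc Γ) := contDiff_snd.comp hΓ

include hΓ in
lemma pt_zc (k : Fin 3) (q : ℝ × ℝ) : (pt Γ q).1 k = pt (zc Γ k) q := by
  have h := HasFDerivAt.comp_hasDerivAt (l := prV k ℂ) (l' := prV k ℂ) q.2
    (prV k ℂ).hasFDerivAt (pt_hasDerivAt hΓ q)
  exact h.unique (pt_hasDerivAt (zc_contDiff hΓ k) q)

include hΓ in
lemma ps_zc (k : Fin 3) (q : ℝ × ℝ) : (ps Γ q).1 k = ps (zc Γ k) q := by
  have h := HasFDerivAt.comp_hasDerivAt (l := prV k ℂ) (l' := prV k ℂ) q.1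
    (prV k ℂ).hasFDerivAt (ps_hasDerivAt hΓ q)
  exact h.unique (ps_hasDerivAt (zc_contDiff hΓ k) q)

include hΓ in
lemma pt_wc (q : ℝ × ℝ) : (pt Γ q).2 = pt (wc Γ) q := by
  have h := HasFDerivAt.comp_hasDerivAt (l := Prod.snd) (l' := ContinuousLinearMap.snd ℝ V3 ℂ) q.2
    hasFDerivAt_snd (pt_hasDerivAt hΓ q)
  exact h.unique (pt_hasDerivAt (wc_contDiff hΓ) q)

include hΓ in
lemma ps_wc (q : ℝ × ℝ) : (ps Γ q).2 = ps (wc Γ) q := by
  have h := HasFDerivAt.comp_hasDerivAt (l := Prod.snd) (l' := ContinuousLinearMap.snd ℝ V3 ℂ) q.1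
    hasFDerivAt_snd (ps_hasDerivAt hΓ q)
  exact h.unique (ps_hasDerivAt (wc_contDiff hΓ) q)

include hΓ in
lemma ptpt_zc (k : Fin 3) (q : ℝ × ℝ) : (pt (pt Γ) q).1 k = pt (pt (zc Γ k)) q := by
  have h := HasFDerivAt.comp_hasDerivAt (l := prV k ℂ) (l' := prV k ℂ) q.2
    (prV k ℂ).hasFDerivAt (pt_hasDerivAt (pt_contDiff hΓ) q)
  have e : (prV k ℂ ∘ fun t => pt Γ (q.1, t)) = fun t => pt (zc Γ k) (q.1, t) :=
    funext fun t => pt_zc hΓ k (q.1, t)
  rw [e] at h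
  exact h.unique (pt_hasDerivAt (pt_contDiff (zc_contDiff hΓ k)) q)

include hΓ in
lemma ptpt_wc (q : ℝ × ℝ) : (pt (pt Γ) q).2 = pt (pt (wc Γ)) q := by
  have h := HasFDerivAt.comp_hasDerivAt (l := Prod.snd) (l' := ContinuousLinearMap.snd ℝ V3 ℂ) q.2
    hasFDerivAt_snd (pt_hasDerivAt (pt_contDiff hΓ) q)
  have e : ((Prod.snd : V3 × ℂ → ℂ) ∘ fun t => pt Γ (q.1, t)) = fun t => pt (wc Γ) (q.1, t) :=
    funext fun t => pt_wc hΓ (q.1, t)
  rw [e] at h
  exact h.unique (pt_hasDerivAt (pt_contDiff (wc_contDiff hΓ)) q)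

lemma mem_timesCircle (q : V3 × ℂ) (h : timesCircle F0 q = 0) :
    (∀ k, Complex.normSq (q.1 k) = 1) ∧ ∑ k, (q.1 k).re = 0 ∧ Complex.normSq q.2 = 1 := by
  have h1 : F0 q.1 = 0 := congrArg Prod.fst h
  have h2 : Complex.normSq q.2 - 1 = 0 := congrArg Prod.snd h
  rw [F0_eq_zero_iff] at h1
  exact ⟨h1.1, h1.2, by linarith⟩

include hgeo in
lemma normSq_zc (k : Fin 3) (s t : ℝ) (hs : |s| < ε) : Complex.normSq (zc Γ k (s, t)) = 1 :=
  (mem_timesCircle _ ((hgeo s hs).2.1 t)).1 k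

include hgeo in
lemma normSq_wc (s t : ℝ) (hs : |s| < ε) : Complex.normSq (wc Γ (s, t)) = 1 :=
  (mem_timesCircle _ ((hgeo s hs).2.1 t)).2.2

include hgeo in
lemma sum_re (s t : ℝ) (hs : |s| < ε) : ∑ k, (zc Γ k (s, t)).re = 0 :=
  (mem_timesCircle _ ((hgeo s hs).2.1 t)).2.1

include hΓ hgeo in
lemma sum_im_vt (s t : ℝ) (hs : |s| < ε) :
    ∑ k, (zc Γ k (s, t)).im * vt (zc Γ k) (s, t) = 0 := by
  have h : HasDerivAt (fun t => ∑ k, (zc Γ k (s, t)).re)
      (∑ k, pt (fun q => (zc Γ k q).re) (s, t)) t := by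
    apply HasDerivAt.fun_sum
    intro k _
    exact pt_hasDerivAt (re_contDiff (zc_contDiff hΓ k)) (s, t)
  have e : (fun t => ∑ k, (zc Γ k (s, t)).re) = fun _ => 0 := funext fun t => sum_re hgeo s t hs
  rw [e] at h
  have h2 := h.unique (hasDerivAt_const t (0 : ℝ))
  have h3 : ∀ k, pt (fun q => (zc Γ k q).re) (s, t)
      = -((zc Γ k (s, t)).im * vt (zc Γ k) (s, t)) := by
    intro k
    rw [pt_re' (zc_contDiff hΓ k) (normSq_zc hgeo k) s t hs]; ring
  rw [Finset.sum_congr rfl fun k _ => h3 k, Finset.sum_neg_distrib] at h2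
  linarith

include hΓ hgeo in
lemma sum_im_vs (s t : ℝ) (hs : |s| < ε) :
    ∑ k, (zc Γ k (s, t)).im * vs (zc Γ k) (s, t) = 0 := by
  have h : HasDerivAt (fun s => ∑ k, (zc Γ k (s, t)).re)
      (∑ k, ps (fun q => (zc Γ k q).re) (s, t)) s := by
    apply HasDerivAt.fun_sum
    intro k _
    exact ps_hasDerivAt (re_contDiff (zc_contDiff hΓ k)) (s, t)
  have e : ∀ᶠ s' in nhds s, (fun _ => (0 : ℝ)) s' = ∑ k, (zc Γ k (s', t)).re := by
    have ho : IsOpen {s' : ℝ | |s'| < ε} := isOpen_lt continuous_abs continuous_const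
    filter_upwards [ho.mem_nhds hs] with s' hs'
    exact (sum_re hgeo s' t hs').symm
  have h2 := (h.congr_of_eventuallyEq e).unique (hasDerivAt_const s (0 : ℝ))
  have h3 : ∀ k, ps (fun q => (zc Γ k q).re) (s, t)
      = -((zc Γ k (s, t)).im * vs (zc Γ k) (s, t)) := by
    intro k
    rw [ps_re' (zc_contDiff hΓ k) (normSq_zc hgeo k) s t hs]; ring
  rw [Finset.sum_congr rfl fun k _ => h3 k, Finset.sum_neg_distrib] at h2
  linarith

lemma ip_rot (z : ℂ) (om : ℝ) : ip z (om * Complex.I * z) = 0 := by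
  rw [ip_apply]
  simp only [Complex.mul_re, Complex.mul_im, Complex.ofReal_re, Complex.ofReal_im,
    Complex.I_re, Complex.I_im]
  ring

lemma β_rot (z : ℂ) (om : ℝ) (h : Complex.normSq z = 1) : β z (om * Complex.I * z) = om := by
  rw [Complex.normSq_apply] at h
  rw [β_apply]
  simp only [Complex.mul_re, Complex.mul_im, Complex.ofReal_re, Complex.ofReal_im,
    Complex.I_re, Complex.I_im]
  linear_combination om * h

lemma ip_rot' (u z : ℂ) (om : ℝ) : ip u (om * Complex.I * z) = om * β z u := by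
  rw [ip_apply, β_apply]
  simp only [Complex.mul_re, Complex.mul_im, Complex.ofReal_re, Complex.ofReal_im,
    Complex.I_re, Complex.I_im]
  ring

include hΓ hgeo in
/-- The geodesic equation in angular coordinates. -/
lemma geo_eq (s t : ℝ) (hs : |s| < ε) (om : Fin 3 → ℝ) (om' : ℝ)
    (hom : ∑ k, om k * (zc Γ k (s, t)).im = 0) :
    ∑ k, om k * pt (vt (zc Γ k)) (s, t) +
      (1 / (2 * Real.pi) * pt (vt (wc Γ)) (s, t) + pt (vt (zc Γ 0)) (s, t)) *
        (1 / (2 * Real.pi) * om' + om 0) = 0 := by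
  have hE := (hgeo s hs).2.2 t
  have d1 : ∀ t, deriv (fun t => Γ (s, t)) t = pt Γ (s, t) := fun t =>
    (pt_hasDerivAt hΓ (s, t)).deriv
  have d2 : deriv (deriv (fun t => Γ (s, t))) t = pt (pt Γ) (s, t) := by
    rw [show deriv (fun t => Γ (s, t)) = fun t => pt Γ (s, t) from funext d1]
    exact (pt_hasDerivAt (pt_contDiff hΓ) (s, t)).deriv
  set W : V3 × ℂ := (fun k => om k * Complex.I * zc Γ k (s, t), om' * Complex.I * wc Γ (s, t)) with hW
  have htan : IsTangent (timesCircle F0) (Γ (s, t)) W := by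
    rw [tangent_timesCircle_iff]
    refine ⟨fun k => ip_rot _ _, ?_, ip_rot _ _⟩
    have : ∀ k, (W.1 k).re = -(om k * (zc Γ k (s, t)).im) := by
      intro k
      simp [hW]
    rw [Finset.sum_congr rfl fun k _ => this k, Finset.sum_neg_distrib, hom, neg_zero]
  have h := hE W htan
  rw [g0, eulerLagrange_sqForm, d2, d1, flatForm_apply] at h
  simp only [B1_apply, ContinuousLinearMap.zero_apply, zero_add] at h
  have e1 : ∀ k, ip ((pt (pt Γ) (s, t)).1 k) (W.1 k) = om k * pt (vt (zc Γ k)) (s, t) := by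
    intro k
    rw [ptpt_zc hΓ, pt_vt (zc_contDiff hΓ k)]
    exact ip_rot' _ _ _
  rw [Finset.sum_congr rfl fun k _ => e1 k] at h
  rw [β_self, β_self] at h
  have b1 : β (Γ (s, t)).2 (pt (pt Γ) (s, t)).2 = pt (vt (wc Γ)) (s, t) := by
    rw [ptpt_wc hΓ, pt_vt (wc_contDiff hΓ)]; rfl
  have b2 : β ((Γ (s, t)).1 0) ((pt (pt Γ) (s, t)).1 0) = pt (vt (zc Γ 0)) (s, t) := by
    rw [ptpt_zc hΓ, pt_vt (zc_contDiff hΓ 0)]; rfl
  have b3 : β (Γ (s, t)).2 W.2 = om' := β_rot _ _ (normSq_wc hgeo s t hs)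
  have b4 : β ((Γ (s, t)).1 0) (W.1 0) = om 0 := β_rot _ _ (normSq_zc hgeo 0 s t hs)
  have b5 : β (pt Γ (s, t)).2 W.2 = 0 := by
    rw [pt_wc hΓ]
    exact β_zero_of_perp (normSq_wc hgeo s t hs)
      (ip_pt (wc_contDiff hΓ) (normSq_wc hgeo) s t hs) (ip_rot _ _)
  have b6 : β ((pt Γ (s, t)).1 0) (W.1 0) = 0 := by
    rw [pt_zc hΓ]
    exact β_zero_of_perp (normSq_zc hgeo 0 s t hs)
      (ip_pt (zc_contDiff hΓ 0) (normSq_zc hgeo 0) s t hs) (ip_rot _ _)
  have b7 : β W.2 (pt Γ (s, t)).2 = 0 := by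
    rw [pt_wc hΓ]
    exact β_zero_of_perp (normSq_wc hgeo s t hs) (ip_rot _ _)
      (ip_pt (wc_contDiff hΓ) (normSq_wc hgeo) s t hs)
  have b8 : β (W.1 0) ((pt Γ (s, t)).1 0) = 0 := by
    rw [pt_zc hΓ]
    exact β_zero_of_perp (normSq_zc hgeo 0 s t hs) (ip_rot _ _)
      (ip_pt (zc_contDiff hΓ 0) (normSq_zc hgeo 0) s t hs)
  rw [b1, b2, b3, b4, b5, b6, b7, b8] at h
  linarith

include hΓ hgeo in
lemma geo_eq1 (s t : ℝ) (hs : |s| < ε) :
    1 / (2 * Real.pi) * pt (vt (wc Γ)) (s, t) + pt (vt (zc Γ 0)) (s, t) = 0 := by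
  have h := geo_eq hΓ hgeo s t hs 0 (2 * Real.pi) (by simp)
  have hpi : (2 * Real.pi) ≠ 0 := by positivity
  have e : 1 / (2 * Real.pi) * (2 * Real.pi) = 1 := by field_simp
  simp only [Pi.zero_apply, zero_mul, Finset.sum_const_zero, zero_add, add_zero] at h
  rw [e, mul_one] at h
  exact h

lemma sum_sq_pos {z : Fin 3 → ℂ} (h1 : ∀ k, Complex.normSq (z k) = 1) (h2 : ∑ k, (z k).re = 0) :
    0 < ∑ k, (z k).im ^ 2 := by
  by_contra hcon
  push Not at hcon
  have hz : ∀ k, (z k).im = 0 := by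
    have h0 : ∑ k, (z k).im ^ 2 = 0 := le_antisymm hcon (Finset.sum_nonneg fun k _ => sq_nonneg _)
    rw [Finset.sum_eq_zero_iff_of_nonneg fun k _ => sq_nonneg _] at h0
    intro k
    exact pow_eq_zero_iff (by norm_num) |>.1 (h0 k (Finset.mem_univ k))
  have hr : ∀ k, (z k).re = 1 ∨ (z k).re = -1 := by
    intro k
    have := h1 k
    rw [Complex.normSq_apply, hz k] at this
    have h3 : ((z k).re - 1) * ((z k).re + 1) = 0 := by linarith
    rcases mul_eq_zero.1 h3 with h | h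
    · left; linarith
    · right; linarith
  rw [Fin.sum_univ_three] at h2
  rcases hr 0 with a | a <;> rcases hr 1 with b | b <;> rcases hr 2 with c | c <;>
    rw [a, b, c] at h2 <;> norm_num at h2

include hΓ hgeo in
lemma geo_eq2 (s t : ℝ) (hs : |s| < ε) (k : Fin 3) :
    pt (vt (zc Γ k)) (s, t) =
      -(∑ l, (zc Γ l (s, t)).re * vt (zc Γ l) (s, t) ^ 2) / (∑ l, (zc Γ l (s, t)).im ^ 2)
        * (zc Γ k (s, t)).im := by
  set n : Fin 3 → ℝ := fun k => (zc Γ k (s, t)).im with hn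
  set a : Fin 3 → ℝ := fun k => pt (vt (zc Γ k)) (s, t) with ha
  set N : ℝ := ∑ l, (zc Γ l (s, t)).im ^ 2 with hN
  have hNpos : 0 < N := sum_sq_pos (fun k => normSq_zc hgeo k s t hs) (sum_re hgeo s t hs)
  have h1 := geo_eq1 hΓ hgeo s t hs
  -- derivative of `∑ im * vt = 0`
  have h2 : ∑ k, (a k * n k + (zc Γ k (s, t)).re * vt (zc Γ k) (s, t) ^ 2) = 0 := by
    have h : HasDerivAt (fun t => ∑ k, (zc Γ k (s, t)).im * vt (zc Γ k) (s, t))
        (∑ k, (pt (fun q => (zc Γ k q).im) (s, t) * vt (zc Γ k) (s, t)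
          + (zc Γ k (s, t)).im * pt (vt (zc Γ k)) (s, t))) t := by
      apply HasDerivAt.fun_sum
      intro k _
      exact (pt_hasDerivAt (im_contDiff (zc_contDiff hΓ k)) (s, t)).mul
        (pt_hasDerivAt (vt_contDiff (zc_contDiff hΓ k)) (s, t))
    have e : (fun t => ∑ k, (zc Γ k (s, t)).im * vt (zc Γ k) (s, t)) = fun _ => 0 :=
      funext fun t => sum_im_vt hΓ hgeo s t hs
    rw [e] at h
    have h3 := h.unique (hasDerivAt_const t (0 : ℝ))
    rw [← h3]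
    apply Finset.sum_congr rfl
    intro k _
    rw [pt_im' (zc_contDiff hΓ k) (normSq_zc hgeo k) s t hs]
    simp only [ha, hn]
    ring
  set lam : ℝ := (∑ k, a k * n k) / N with hlam
  have h3 : ∑ k, (a k - lam * n k) * n k = 0 := by
    have : ∑ k, (a k - lam * n k) * n k = ∑ k, a k * n k - lam * N := by
      rw [hN, Finset.mul_sum, ← Finset.sum_sub_distrib]
      apply Finset.sum_congr rfl
      intro k _
      simp only [hn]; ring
    rw [this, hlam]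
    field_simp
    ring
  have h4 := geo_eq hΓ hgeo s t hs (fun k => a k - lam * n k) 0 h3
  rw [h1, zero_mul, add_zero] at h4
  have h5 : ∑ k, (a k - lam * n k) ^ 2 = 0 := by
    have : ∑ k, (a k - lam * n k) ^ 2 = ∑ k, (a k - lam * n k) * a k
        - lam * ∑ k, (a k - lam * n k) * n k := by
      rw [Finset.mul_sum, ← Finset.sum_sub_distrib]
      apply Finset.sum_congr rfl
      intro k _
      ring
    rw [this, h4, h3]; ring
  rw [Finset.sum_eq_zero_iff_of_nonneg fun k _ => sq_nonneg _] at h5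
  have h6 : a k - lam * n k = 0 := pow_eq_zero_iff (by norm_num) |>.1 (h5 k (Finset.mem_univ k))
  have h7 : a k = lam * n k := by linarith
  have h8 : ∑ k, a k * n k = -(∑ l, (zc Γ l (s, t)).re * vt (zc Γ l) (s, t) ^ 2) := by
    rw [Finset.sum_add_distrib] at h2
    linarith
  change a k = _
  rw [h7, hlam, h8]

end

end Pool.Agent.H847R2.Shear
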