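import Pool.Agent.H847R2.Shear.NoConj2

namespace Pool.Agent.H847R2.Shear

open scoped ContDiff

section

variable {Γ : ℝ × ℝ → V3 × ℂ} (hΓ : ContDiff ℝ ∞ Γ) {ε : ℝ} (hε : 0 < ε)
  (hgeo : ∀ s, |s| < ε → IsGeodesic (timesCircle F0) g0 (fun t => Γ (s, t)))

noncomputable def cf (Γ : ℝ × ℝ → V3 × ℂ) (k : Fin 3) (t : ℝ) : ℝ := (zc Γ k (0, t)).re
noncomputable def nf (Γ : ℝ × ℝ → V3 × ℂ) (k : Fin 3) (t : ℝ) : ℝ := (zc Γ k (0, t)).im
noncomputable def vf (Γ : ℝ × ℝ → V3 × ℂ) (k : Fin 3) (t : ℝ) : ℝ := vt (zc Γ k) (0, t)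
noncomputable def jf (Γ : ℝ × ℝ → V3 × ℂ) (k : Fin 3) (t : ℝ) : ℝ := vs (zc Γ k) (0, t)
noncomputable def Df (Γ : ℝ × ℝ → V3 × ℂ) (k : Fin 3) (t : ℝ) : ℝ := ps (vt (zc Γ k)) (0, t)
noncomputable def Ef (Γ : ℝ × ℝ → V3 × ℂ) (k : Fin 3) (t : ℝ) : ℝ := pt (ps (vt (zc Γ k))) (0, t)
noncomputable def Nf (Γ : ℝ × ℝ → V3 × ℂ) (t : ℝ) : ℝ := ∑ l, nf Γ l t ^ 2
noncomputable def Sf (Γ : ℝ × ℝ → V3 × ℂ) (t : ℝ) : ℝ := ∑ l, cf Γ l t * vf Γ l t ^ 2

lemma cont_line {f : ℝ × ℝ → ℝ} (hf : ContDiff ℝ ∞ f) : Continuous (fun t => f (0, t)) :=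
  hf.continuous.comp (by fun_prop)

include hΓ in
lemma cf_cont (k : Fin 3) : Continuous (cf Γ k) := cont_line (re_contDiff (zc_contDiff hΓ k))
include hΓ in
lemma nf_cont (k : Fin 3) : Continuous (nf Γ k) := cont_line (im_contDiff (zc_contDiff hΓ k))
include hΓ in
lemma vf_cont (k : Fin 3) : Continuous (vf Γ k) := cont_line (vt_contDiff (zc_contDiff hΓ k))

include hε hgeo in
lemma Nf_pos (t : ℝ) : 0 < Nf Γ t :=
  sum_sq_pos (fun k => normSq_zc hgeo k 0 t (by simpa using hε))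
    (sum_re hgeo 0 t (by simpa using hε))

include hΓ hε hgeo in
lemma jf_hasDerivAt (k : Fin 3) (t : ℝ) : HasDerivAt (jf Γ k) (Df Γ k t) t := by
  have h := pt_hasDerivAt (vs_contDiff (zc_contDiff hΓ k)) (0, t)
  rw [← ps_vt (zc_contDiff hΓ k) (normSq_zc hgeo k) 0 t (by simpa using hε)] at h
  exact h

include hΓ in
lemma Df_hasDerivAt (k : Fin 3) (t : ℝ) : HasDerivAt (Df Γ k) (Ef Γ k t) t :=
  pt_hasDerivAt (ps_contDiff (vt_contDiff (zc_contDiff hΓ k))) (0, t)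

include hΓ hε hgeo in
lemma Ef_eq (k : Fin 3) (t : ℝ) :
    Ef Γ k t = (-(∑ l, (-(jf Γ l t) * nf Γ l t * vf Γ l t ^ 2
        + cf Γ l t * (2 * vf Γ l t * Df Γ l t))) * Nf Γ t
        + Sf Γ t * (∑ l, 2 * nf Γ l t * (jf Γ l t * cf Γ l t))) / Nf Γ t ^ 2 * nf Γ k t
      - Sf Γ t / Nf Γ t * (jf Γ k t * cf Γ k t) := by
  have h0 : |(0 : ℝ)| < ε := by simpa using hε
  have hN := Nf_pos hε hgeo t
  have e0 : Ef Γ k t = ps (pt (vt (zc Γ k))) (0, t) := pt_ps (vt_contDiff (zc_contDiff hΓ k)) (0, t)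
  rw [e0]
  have h1 := ps_hasDerivAt (pt_contDiff (vt_contDiff (zc_contDiff hΓ k))) (0, t)
  have hc : ∀ l, HasDerivAt (fun s => (zc Γ l (s, t)).re) (-(jf Γ l t) * nf Γ l t) 0 := by
    intro l
    have := ps_hasDerivAt (re_contDiff (zc_contDiff hΓ l)) (0, t)
    rwa [ps_re' (zc_contDiff hΓ l) (normSq_zc hgeo l) 0 t h0] at this
  have hn : ∀ l, HasDerivAt (fun s => (zc Γ l (s, t)).im) (jf Γ l t * cf Γ l t) 0 := by
    intro l
    have := ps_hasDerivAt (im_contDiff (zc_contDiff hΓ l)) (0, t)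
    rwa [ps_im' (zc_contDiff hΓ l) (normSq_zc hgeo l) 0 t h0] at this
  have hv : ∀ l, HasDerivAt (fun s => vt (zc Γ l) (s, t)) (Df Γ l t) 0 := fun l =>
    ps_hasDerivAt (vt_contDiff (zc_contDiff hΓ l)) (0, t)
  have hS : HasDerivAt (fun s => ∑ l, (zc Γ l (s, t)).re * vt (zc Γ l) (s, t) ^ 2)
      (∑ l, (-(jf Γ l t) * nf Γ l t * vf Γ l t ^ 2
        + cf Γ l t * (2 * vf Γ l t * Df Γ l t))) 0 := by
    apply HasDerivAt.fun_sum
    intro l _
    have := (hc l).mul ((hv l).pow 2)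
    refine this.congr_deriv ?_
    simp [vf, cf]
  have hNn : HasDerivAt (fun s => ∑ l, (zc Γ l (s, t)).im ^ 2)
      (∑ l, 2 * nf Γ l t * (jf Γ l t * cf Γ l t)) 0 := by
    apply HasDerivAt.fun_sum
    intro l _
    have := (hn l).pow 2
    refine this.congr_deriv ?_
    simp [nf]
  have hq := ((hS.neg).div hNn (ne_of_gt hN)).mul (hn k)
  have heq : ∀ᶠ s in nhds (0 : ℝ), pt (vt (zc Γ k)) (s, t) =
      ((-fun s => ∑ l, (zc Γ l (s, t)).re * vt (zc Γ l) (s, t) ^ 2) /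
        (fun s => ∑ l, (zc Γ l (s, t)).im ^ 2) * fun s => (zc Γ k (s, t)).im) s := by
    have ho : IsOpen {s' : ℝ | |s'| < ε} := isOpen_lt continuous_abs continuous_const
    filter_upwards [ho.mem_nhds h0] with s hs
    rw [geo_eq2 hΓ hgeo s t hs k]
    simp
  have h2 := hq.congr_of_eventuallyEq heq
  have h3 := h1.unique h2
  rw [h3]
  simp only [Pi.neg_apply, Pi.div_apply]
  change ((-∑ l, (-(jf Γ l t) * nf Γ l t * vf Γ l t ^ 2
        + cf Γ l t * (2 * vf Γ l t * Df Γ l t))) * Nf Γ t - -(Sf Γ t) *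
        (∑ l, 2 * nf Γ l t * (jf Γ l t * cf Γ l t))) / Nf Γ t ^ 2 * nf Γ k t
        + -(Sf Γ t) / Nf Γ t * (jf Γ k t * cf Γ k t) = _
  ring

/-- coefficients of the linear ODE -/
noncomputable def ca (Γ : ℝ × ℝ → V3 × ℂ) (k l : Fin 3) (t : ℝ) : ℝ :=
  nf Γ k t * nf Γ l t * vf Γ l t ^ 2 / Nf Γ t
    + 2 * Sf Γ t * nf Γ k t * nf Γ l t * cf Γ l t / Nf Γ t ^ 2
    - (if k = l then Sf Γ t / Nf Γ t * cf Γ k t else 0)

noncomputable def cb (Γ : ℝ × ℝ → V3 × ℂ) (k l : Fin 3) (t : ℝ) : ℝ :=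
  -(2 * nf Γ k t * cf Γ l t * vf Γ l t / Nf Γ t)

include hΓ hε hgeo in
lemma Ef_eq' (k : Fin 3) (t : ℝ) :
    Ef Γ k t = ∑ l, (ca Γ k l t * jf Γ l t + cb Γ k l t * Df Γ l t) := by
  have hN := Nf_pos hε hgeo t
  rw [Ef_eq hΓ hε hgeo]
  fin_cases k <;>
  · simp only [ca, cb, Fin.sum_univ_three]
    simp
    field_simp
    ring

include hΓ in
lemma Sf_cont : Continuous (Sf Γ) := by
  unfold Sf
  exact continuous_finsetSum _ fun l _ => (cf_cont hΓ l).mul ((vf_cont hΓ l).pow 2)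

include hΓ in
lemma Nf_cont : Continuous (Nf Γ) := by
  unfold Nf
  exact continuous_finsetSum _ fun l _ => (nf_cont hΓ l).pow 2

include hΓ hε hgeo in
lemma ca_cont (k l : Fin 3) : Continuous (ca Γ k l) := by
  have hN : ∀ t, Nf Γ t ≠ 0 := fun t => (Nf_pos hε hgeo t).ne'
  have hN2 : ∀ t, Nf Γ t ^ 2 ≠ 0 := fun t => pow_ne_zero 2 (hN t)
  unfold ca
  refine ((Continuous.div ?_ (Nf_cont hΓ) hN).add (Continuous.div ?_ ((Nf_cont hΓ).pow 2) hN2)).sub ?_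
  · exact ((nf_cont hΓ k).mul (nf_cont hΓ l)).mul ((vf_cont hΓ l).pow 2)
  · exact (((continuous_const.mul (Sf_cont hΓ)).mul (nf_cont hΓ k)).mul (nf_cont hΓ l)).mul
      (cf_cont hΓ l)
  · split_ifs
    · exact ((Sf_cont hΓ).div (Nf_cont hΓ) hN).mul (cf_cont hΓ k)
    · exact continuous_const

include hΓ hε hgeo in
lemma cb_cont (k l : Fin 3) : Continuous (cb Γ k l) := by
  have hN : ∀ t, Nf Γ t ≠ 0 := fun t => (Nf_pos hε hgeo t).ne'
  unfold cb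
  refine (Continuous.div ?_ (Nf_cont hΓ) hN).neg
  exact ((continuous_const.mul (nf_cont hΓ k)).mul (cf_cont hΓ l)).mul (vf_cont hΓ l)

/-- phase space of the linear ODE -/
abbrev PS : Type := (Fin 3 → ℝ) × (Fin 3 → ℝ)

noncomputable def Pm (k l : Fin 3) : PS →L[ℝ] PS :=
  (ContinuousLinearMap.inr ℝ (Fin 3 → ℝ) (Fin 3 → ℝ)).comp
    ((ContinuousLinearMap.single ℝ (fun _ : Fin 3 => ℝ) k).comp
      ((ContinuousLinearMap.proj l).comp (ContinuousLinearMap.fst ℝ _ _)))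

noncomputable def Qm (k l : Fin 3) : PS →L[ℝ] PS :=
  (ContinuousLinearMap.inr ℝ (Fin 3 → ℝ) (Fin 3 → ℝ)).comp
    ((ContinuousLinearMap.single ℝ (fun _ : Fin 3 => ℝ) k).comp
      ((ContinuousLinearMap.proj l).comp (ContinuousLinearMap.snd ℝ _ _)))

noncomputable def Am (Γ : ℝ × ℝ → V3 × ℂ) (t : ℝ) : PS →L[ℝ] PS :=
  (ContinuousLinearMap.inl ℝ (Fin 3 → ℝ) (Fin 3 → ℝ)).comp (ContinuousLinearMap.snd ℝ _ _)
    + ∑ k, ∑ l, (ca Γ k l t • Pm k l + cb Γ k l t • Qm k l)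

include hΓ hε hgeo in
lemma Am_cont : Continuous (Am Γ) := by
  unfold Am
  refine continuous_const.add (continuous_finsetSum _ fun k _ => continuous_finsetSum _
    fun l _ => ?_)
  exact ((ca_cont hΓ hε hgeo k l).smul continuous_const).add
    ((cb_cont hΓ hε hgeo k l).smul continuous_const)

lemma Am_apply (Γ : ℝ × ℝ → V3 × ℂ) (t : ℝ) (x : PS) :
    Am Γ t x = (x.2, fun k => ∑ l, (ca Γ k l t * x.1 l + cb Γ k l t * x.2 l)) := by
  have hP : ∀ k l, Pm k l x = ((0 : Fin 3 → ℝ), Pi.single k (x.1 l)) := by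
    intro k l; rfl
  have hQ : ∀ k l, Qm k l x = ((0 : Fin 3 → ℝ), Pi.single k (x.2 l)) := by
    intro k l; rfl
  unfold Am
  simp only [add_apply, sum_apply, smul_apply, hP, hQ]
  refine Prod.ext ?_ ?_
  · simp [Prod.fst_sum]
  · funext m
    simp only [Prod.snd_add, Prod.snd_sum, Prod.smul_snd, Finset.sum_apply, Pi.add_apply,
      Pi.smul_apply, smul_eq_mul]
    simp only [Pi.single_apply, mul_ite, mul_zero]
    rw [Finset.sum_eq_single m]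
    · simp
    · intro k _ hk
      simp [hk.symm]
    · simp

include hΓ hε hgeo in
lemma jf_zero_of_init (t0 : ℝ) (h1 : ∀ k, jf Γ k t0 = 0) (h2 : ∀ k, Df Γ k t0 = 0) (t : ℝ)
    (k : Fin 3) : jf Γ k t = 0 := by
  have hx : ∀ t, HasDerivAt (fun t => ((fun k => jf Γ k t, fun k => Df Γ k t) : PS))
      (Am Γ t (fun k => jf Γ k t, fun k => Df Γ k t)) t := by
    intro t
    rw [Am_apply]
    refine HasDerivAt.prodMk ?_ ?_
    · rw [hasDerivAt_pi]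
      intro k
      exact jf_hasDerivAt hΓ hε hgeo k t
    · rw [hasDerivAt_pi]
      intro k
      have := Df_hasDerivAt hΓ k t
      rwa [Ef_eq' hΓ hε hgeo] at this
  have := linear_ode_unique (Am Γ) (Am_cont hΓ hε hgeo) _ hx t0
    (by
      refine Prod.ext ?_ ?_
      · funext k; exact h1 k
      · funext k; exact h2 k) t
  exact congrFun (congrArg Prod.fst this) k

lemma convex_zero {h : ℝ → ℝ} (hd : Differentiable ℝ h) (hd' : Differentiable ℝ (deriv h))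
    (h2 : ∀ x, 0 ≤ deriv (deriv h) x) (hpos : ∀ x, 0 ≤ h x) {a b : ℝ} (ha : h a = 0) (hb : h b = 0)
    {x : ℝ} (hx : x ∈ Set.Icc a b) : h x = 0 := by
  have hc : ConvexOn ℝ Set.univ h := convexOn_univ_of_deriv2_nonneg hd hd' h2
  have := hc.le_max_of_mem_Icc (Set.mem_univ a) (Set.mem_univ b) hx
  rw [ha, hb, max_self] at this
  exact le_antisymm this (hpos x)

include hΓ hε hgeo in
lemma second_deriv_nonneg (t : ℝ) :
    0 ≤ ∑ k, (Df Γ k t ^ 2 + jf Γ k t * Ef Γ k t) := by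
  have h0 : |(0 : ℝ)| < ε := by simpa using hε
  have hN := Nf_pos hε hgeo t
  have hjn : ∑ k, nf Γ k t * jf Γ k t = 0 := sum_im_vs hΓ hgeo 0 t h0
  have hvn : ∑ k, nf Γ k t * vf Γ k t = 0 := sum_im_vt hΓ hgeo 0 t h0
  have hc : ∑ k, cf Γ k t = 0 := sum_re hgeo 0 t h0
  have hcn : ∀ k, cf Γ k t ^ 2 + nf Γ k t ^ 2 = 1 := by
    intro k
    have := normSq_zc hgeo k 0 t h0
    rw [Complex.normSq_apply] at this
    simp only [cf, nf]
    linarith
  -- derivative of `∑ n j = 0`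
  have hD : ∑ k, (nf Γ k t * Df Γ k t + cf Γ k t * vf Γ k t * jf Γ k t) = 0 := by
    have h : HasDerivAt (fun t => ∑ k, nf Γ k t * jf Γ k t)
        (∑ k, (vf Γ k t * cf Γ k t * jf Γ k t + nf Γ k t * Df Γ k t)) t := by
      apply HasDerivAt.fun_sum
      intro k _
      have hn := pt_hasDerivAt (im_contDiff (zc_contDiff hΓ k)) (0, t)
      rw [pt_im' (zc_contDiff hΓ k) (normSq_zc hgeo k) 0 t h0] at hn
      exact hn.mul (jf_hasDerivAt hΓ hε hgeo k t)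
    have e : (fun t => ∑ k, nf Γ k t * jf Γ k t) = fun _ => 0 :=
      funext fun t => sum_im_vs hΓ hgeo 0 t h0
    rw [e] at h
    have h3 := h.unique (hasDerivAt_const t (0 : ℝ))
    rw [← h3]
    apply Finset.sum_congr rfl
    intro k _
    ring
  have hE : ∑ k, jf Γ k t * Ef Γ k t = -(Sf Γ t / Nf Γ t) * ∑ k, cf Γ k t * jf Γ k t ^ 2 := by
    set R := (-(∑ l, (-(jf Γ l t) * nf Γ l t * vf Γ l t ^ 2
        + cf Γ l t * (2 * vf Γ l t * Df Γ l t))) * Nf Γ t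
        + Sf Γ t * (∑ l, 2 * nf Γ l t * (jf Γ l t * cf Γ l t))) / Nf Γ t ^ 2 with hR
    have : ∀ k, jf Γ k t * Ef Γ k t = R * (nf Γ k t * jf Γ k t)
        + -(Sf Γ t / Nf Γ t) * (cf Γ k t * jf Γ k t ^ 2) := by
      intro k
      rw [Ef_eq hΓ hε hgeo, ← hR]; ring
    rw [Finset.sum_congr rfl fun k _ => this k, Finset.sum_add_distrib, ← Finset.mul_sum,
      ← Finset.mul_sum, hjn, mul_zero, zero_add]
  rw [Finset.sum_add_distrib, hE]
  simp only [Fin.sum_univ_three] at *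
  have key := key_ineq (cf Γ 0 t) (cf Γ 1 t) (cf Γ 2 t) (nf Γ 0 t) (nf Γ 1 t) (nf Γ 2 t)
    (vf Γ 0 t) (vf Γ 1 t) (vf Γ 2 t) (jf Γ 0 t) (jf Γ 1 t) (jf Γ 2 t) hc (hcn 0) (hcn 1) (hcn 2)
    hvn hjn (by simpa [Nf, Fin.sum_univ_three] using hN)
  have CS : (nf Γ 0 t * Df Γ 0 t + nf Γ 1 t * Df Γ 1 t + nf Γ 2 t * Df Γ 2 t) ^ 2 ≤
      Nf Γ t * (Df Γ 0 t ^ 2 + Df Γ 1 t ^ 2 + Df Γ 2 t ^ 2) := by
    simp only [Nf, Fin.sum_univ_three]
    nlinarith [sq_nonneg (nf Γ 0 t * Df Γ 1 t - nf Γ 1 t * Df Γ 0 t),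
      sq_nonneg (nf Γ 0 t * Df Γ 2 t - nf Γ 2 t * Df Γ 0 t),
      sq_nonneg (nf Γ 1 t * Df Γ 2 t - nf Γ 2 t * Df Γ 1 t)]
  have e1 : nf Γ 0 t * Df Γ 0 t + nf Γ 1 t * Df Γ 1 t + nf Γ 2 t * Df Γ 2 t
      = -(cf Γ 0 t * vf Γ 0 t * jf Γ 0 t + cf Γ 1 t * vf Γ 1 t * jf Γ 1 t
        + cf Γ 2 t * vf Γ 2 t * jf Γ 2 t) := by linarith
  rw [e1, neg_sq] at CS
  have e2 : Sf Γ t = cf Γ 0 t * vf Γ 0 t ^ 2 + cf Γ 1 t * vf Γ 1 t ^ 2 + cf Γ 2 t * vf Γ 2 t ^ 2 := by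
    simp [Sf, Fin.sum_univ_three]
  have e3 : Nf Γ t * (Df Γ 0 t ^ 2 + Df Γ 1 t ^ 2 + Df Γ 2 t ^ 2 + -(Sf Γ t / Nf Γ t) *
      (cf Γ 0 t * jf Γ 0 t ^ 2 + cf Γ 1 t * jf Γ 1 t ^ 2 + cf Γ 2 t * jf Γ 2 t ^ 2))
      = Nf Γ t * (Df Γ 0 t ^ 2 + Df Γ 1 t ^ 2 + Df Γ 2 t ^ 2) - Sf Γ t *
      (cf Γ 0 t * jf Γ 0 t ^ 2 + cf Γ 1 t * jf Γ 1 t ^ 2 + cf Γ 2 t * jf Γ 2 t ^ 2) := by
    field_simp
    ring
  have e4 : 0 ≤ Nf Γ t * (Df Γ 0 t ^ 2 + Df Γ 1 t ^ 2 + Df Γ 2 t ^ 2 + -(Sf Γ t / Nf Γ t) *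
      (cf Γ 0 t * jf Γ 0 t ^ 2 + cf Γ 1 t * jf Γ 1 t ^ 2 + cf Γ 2 t * jf Γ 2 t ^ 2)) := by
    rw [e3, e2]; linarith
  exact nonneg_of_mul_nonneg_right e4 hN

end

theorem noConjugatePoints_g0 : NoConjugatePoints (timesCircle F0) g0 := by
  intro J hJ
  obtain ⟨Γ, hΓ, ⟨ε, hε, hgeo⟩, hJ⟩ := hJ
  have h0 : |(0 : ℝ)| < ε := by simpa using hε
  -- reduce to a < b
  suffices H : ∀ a b, a < b → J a = 0 → J b = 0 → ∀ t, J t = 0 by
    intro a b hab ha hb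
    rcases lt_or_gt_of_ne hab with h | h
    · exact H a b h ha hb
    · exact H b a h hb ha
  intro a b hab ha hb t
  have hJs : ∀ t, J t = ps Γ (0, t) := fun t => by
    rw [hJ t]; exact (ps_hasDerivAt hΓ (0, t)).deriv
  have hz : ∀ t, J t = 0 → (∀ k, jf Γ k t = 0) ∧ vs (wc Γ) (0, t) = 0 := by
    intro t ht
    rw [hJs] at ht
    refine ⟨fun k => ?_, ?_⟩
    · have : ps (zc Γ k) (0, t) = 0 := by rw [← ps_zc hΓ, ht]; rfl
      simp [jf, vs, this]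
    · have : ps (wc Γ) (0, t) = 0 := by rw [← ps_wc hΓ, ht]; rfl
      simp [vs, this]
  obtain ⟨ja, wa⟩ := hz a ha
  obtain ⟨jb, wb⟩ := hz b hb
  -- the convex function
  set h : ℝ → ℝ := fun t => ∑ k, jf Γ k t ^ 2 with hh
  have hd1 : ∀ t, HasDerivAt h (∑ k, 2 * (jf Γ k t * Df Γ k t)) t := by
    intro t
    apply HasDerivAt.fun_sum
    intro k _
    have := (jf_hasDerivAt hΓ hε hgeo k t).pow 2
    refine this.congr_deriv ?_
    simp; ring
  have hd2 : ∀ t, HasDerivAt (fun t => ∑ k, 2 * (jf Γ k t * Df Γ k t))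
      (2 * ∑ k, (Df Γ k t ^ 2 + jf Γ k t * Ef Γ k t)) t := by
    intro t
    rw [Finset.mul_sum]
    apply HasDerivAt.fun_sum
    intro k _
    have := ((jf_hasDerivAt hΓ hε hgeo k t).mul (Df_hasDerivAt hΓ k t)).const_mul 2
    refine this.congr_deriv ?_
    ring
  have hderiv : deriv h = fun t => ∑ k, 2 * (jf Γ k t * Df Γ k t) := funext fun t => (hd1 t).deriv
  have hzero : ∀ x ∈ Set.Icc a b, h x = 0 := by
    intro x hx
    refine convex_zero (fun t => (hd1 t).differentiableAt) ?_ ?_ ?_ ?_ ?_ hx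
    · rw [hderiv]; exact fun t => (hd2 t).differentiableAt
    · intro t
      rw [hderiv, (hd2 t).deriv]
      have := second_deriv_nonneg hΓ hε hgeo t
      linarith
    · intro t; exact Finset.sum_nonneg fun k _ => sq_nonneg _
    · simp [hh, ja]
    · simp [hh, jb]
  have hj0 : ∀ x ∈ Set.Icc a b, ∀ k, jf Γ k x = 0 := by
    intro x hx k
    have := hzero x hx
    rw [hh] at this
    simp only at this
    rw [Finset.sum_eq_zero_iff_of_nonneg fun k _ => sq_nonneg _] at this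
    exact pow_eq_zero_iff (by norm_num) |>.1 (this k (Finset.mem_univ k))
  set m := (a + b) / 2 with hm
  have hmm : m ∈ Set.Ioo a b := ⟨by rw [hm]; linarith, by rw [hm]; linarith⟩
  have hD0 : ∀ k, Df Γ k m = 0 := by
    intro k
    have e : ∀ᶠ x in nhds m, (fun _ => (0 : ℝ)) x = jf Γ k x := by
      filter_upwards [isOpen_Ioo.mem_nhds hmm] with x hx
      exact (hj0 x ⟨hx.1.le, hx.2.le⟩ k).symm
    exact ((jf_hasDerivAt hΓ hε hgeo k m).congr_of_eventuallyEq e).unique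
      (hasDerivAt_const m (0 : ℝ))
  have hjall : ∀ t k, jf Γ k t = 0 := fun t k =>
    jf_zero_of_init hΓ hε hgeo m (fun k => hj0 m ⟨hmm.1.le, hmm.2.le⟩ k) hD0 t k
  -- the circle component
  set u : ℝ → ℝ := fun t => 1 / (2 * Real.pi) * vs (wc Γ) (0, t) + vs (zc Γ 0) (0, t) with hu
  have cu : ContDiff ℝ ∞ u := by
    have l : ContDiff ℝ ∞ (fun t : ℝ => ((0 : ℝ), t)) := contDiff_const.prodMk contDiff_id
    exact (contDiff_const.mul ((vs_contDiff (wc_contDiff hΓ)).comp l)).add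
      ((vs_contDiff (zc_contDiff hΓ 0)).comp l)
  have du : deriv u = fun t => 1 / (2 * Real.pi) * ps (vt (wc Γ)) (0, t)
      + ps (vt (zc Γ 0)) (0, t) := by
    funext t
    have h1 := pt_hasDerivAt (vs_contDiff (wc_contDiff hΓ)) (0, t)
    have h2 := pt_hasDerivAt (vs_contDiff (zc_contDiff hΓ 0)) (0, t)
    rw [← ps_vt (wc_contDiff hΓ) (normSq_wc hgeo) 0 t h0] at h1
    rw [← ps_vt (zc_contDiff hΓ 0) (normSq_zc hgeo 0) 0 t h0] at h2
    exact ((h1.const_mul (1 / (2 * Real.pi))).add h2).deriv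
  have ddu : ∀ t, deriv (deriv u) t = 0 := by
    intro t
    rw [du]
    have h1 := pt_hasDerivAt (ps_contDiff (vt_contDiff (wc_contDiff hΓ))) (0, t)
    have h2 := pt_hasDerivAt (ps_contDiff (vt_contDiff (zc_contDiff hΓ 0))) (0, t)
    have h3 := ((h1.const_mul (1 / (2 * Real.pi))).add h2).deriv
    rw [pt_ps (vt_contDiff (wc_contDiff hΓ)), pt_ps (vt_contDiff (zc_contDiff hΓ 0))] at h3
    have h4 := ps_hasDerivAt (pt_contDiff (vt_contDiff (wc_contDiff hΓ))) (0, t)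
    have h5 := ps_hasDerivAt (pt_contDiff (vt_contDiff (zc_contDiff hΓ 0))) (0, t)
    have h6 := (h4.const_mul (1 / (2 * Real.pi))).add h5
    have e : ∀ᶠ s in nhds (0 : ℝ), (fun _ => (0 : ℝ)) s =
        ((fun s => 1 / (2 * Real.pi) * pt (vt (wc Γ)) (s, t))
          + fun s => pt (vt (zc Γ 0)) (s, t)) s := by
      have ho : IsOpen {s' : ℝ | |s'| < ε} := isOpen_lt continuous_abs continuous_const
      filter_upwards [ho.mem_nhds h0] with s hs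
      exact (geo_eq1 hΓ hgeo s t hs).symm
    have h7 := (h6.congr_of_eventuallyEq e).unique (hasDerivAt_const 0 (0 : ℝ))
    rw [h7] at h3
    exact h3
  have aff := affine_of_deriv2 cu ddu
  have ua : u a = 0 := by
    have := ja 0
    simp only [jf] at this
    simp [hu, wa, this]
  have ub : u b = 0 := by
    have := jb 0
    simp only [jf] at this
    simp [hu, wb, this]
  have hslope : deriv u 0 = 0 := by
    have h1 := aff a
    have h2 := aff b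
    rw [ua] at h1
    rw [ub] at h2
    have h3 : (b - a) * deriv u 0 = 0 := by linarith
    exact (mul_eq_zero.1 h3).resolve_left (by linarith)
  have u0 : u 0 = 0 := by
    have h1 := aff a
    rw [ua, hslope] at h1
    linarith
  have hut : u t = 0 := by rw [aff t, hslope, u0]; ring
  have hwt : vs (wc Γ) (0, t) = 0 := by
    have h1 := hjall t 0
    simp only [jf] at h1
    rw [hu] at hut
    simp only [h1, add_zero] at hut
    rcases mul_eq_zero.1 hut with h2 | h2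
    · exact absurd h2 (by positivity)
    · exact h2
  rw [hJs]
  refine Prod.ext ?_ ?_
  · funext k
    rw [ps_zc hΓ]
    have hn := normSq_zc hgeo k 0 t h0
    have hp := ip_ps (zc_contDiff hΓ k) (normSq_zc hgeo k) 0 t h0
    have hb0 : β (zc Γ k (0, t)) (ps (zc Γ k) (0, t)) = 0 := hjall t k
    refine Complex.ext ?_ ?_
    · rw [re_of_perp hn hp, hb0]; simp
    · rw [im_of_perp hn hp, hb0]; simp
  · rw [ps_wc hΓ]
    have hn := normSq_wc hgeo 0 t h0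
    have hp := ip_ps (wc_contDiff hΓ) (normSq_wc hgeo) 0 t h0
    have hb0 : β (wc Γ (0, t)) (ps (wc Γ) (0, t)) = 0 := hwt
    refine Complex.ext ?_ ?_
    · rw [re_of_perp hn hp, hb0]; simp
    · rw [im_of_perp hn hp, hb0]; simp

end Pool.Agent.H847R2.Shear
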