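import Pool.Agent.H847R2.Shear.NoConj3

namespace Pool.Agent.H847R2.Shear

open scoped ContDiff

lemma F0_surj (p : V3) (hp : F0 p = 0) : Function.Surjective (fderiv ℝ F0 p) := by
  rw [F0_eq_zero_iff] at hp
  obtain ⟨h1, h2⟩ := hp
  have hN := sum_sq_pos h1 h2
  rintro ⟨r, c⟩
  set N := ∑ k, (p k).im ^ 2 with hNdef
  set lam : ℝ := ((∑ k, (r k / 2) * (p k).re) - c) / N with hlam
  refine ⟨fun k => ((r k / 2 : ℝ) : ℂ) * p k + ((lam * (p k).im : ℝ) : ℂ) * Complex.I * p k, ?_⟩
  rw [fderiv_F0]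
  refine Prod.ext ?_ ?_
  · funext k
    have hk := h1 k
    rw [Complex.normSq_apply] at hk
    simp only
    rw [ip_apply]
    simp only [Complex.add_re, Complex.add_im, Complex.mul_re, Complex.mul_im, Complex.ofReal_re,
      Complex.ofReal_im, Complex.I_re, Complex.I_im]
    linear_combination (r k) * hk
  · simp only
    have e : ∀ k, (((r k / 2 : ℝ) : ℂ) * p k + ((lam * (p k).im : ℝ) : ℂ) * Complex.I * p k).re
        = (r k / 2) * (p k).re - lam * (p k).im ^ 2 := by
      intro k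
      simp only [Complex.add_re, Complex.mul_re, Complex.mul_im, Complex.ofReal_re,
        Complex.ofReal_im, Complex.I_re, Complex.I_im]
      ring
    rw [Finset.sum_congr rfl fun k _ => e k, Finset.sum_sub_distrib, ← Finset.mul_sum, ← hNdef,
      hlam]
    field_simp
    ring

lemma F0_compact : IsCompact {p : V3 | F0 p = 0} := by
  refine Metric.isCompact_of_isClosed_isBounded ?_ ?_
  · exact isClosed_eq F0_contDiff.continuous continuous_const
  · refine (Metric.isBounded_closedBall (x := (0 : V3)) (r := 1)).subset ?_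
    intro p hp
    rw [Set.mem_ofPred_eq, F0_eq_zero_iff] at hp
    rw [mem_closedBall_zero_iff, pi_norm_le_iff_of_nonneg (by norm_num)]
    intro k
    have := hp.1 k
    rw [Complex.normSq_eq_norm_sq] at this
    nlinarith [norm_nonneg (p k)]

/-- the hexagon -/
def Hex : Set (Fin 3 → ℝ) := {a | (∀ k, a k ∈ Set.Icc (-1 : ℝ) 1) ∧ ∑ k, a k = 0}

lemma Hex_convex : Convex ℝ Hex := by
  rintro a ⟨ha1, ha2⟩ b ⟨hb1, hb2⟩ s t hs ht hst
  refine ⟨fun k => ?_, ?_⟩
  · exact convex_Icc (-1 : ℝ) 1 (ha1 k) (hb1 k) hs ht hst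
  · simp only [Pi.add_apply, Pi.smul_apply, smul_eq_mul]
    rw [Finset.sum_add_distrib, ← Finset.mul_sum, ← Finset.mul_sum, ha2, hb2]
    ring

/-- one of the eight sheets -/
noncomputable def sheet (σ : Fin 3 → ℝ) (a : Fin 3 → ℝ) : V3 :=
  fun k => ⟨a k, σ k * Real.sqrt (1 - a k ^ 2)⟩

lemma sheet_continuous (σ : Fin 3 → ℝ) : Continuous (sheet σ) := by
  refine continuous_pi fun k => ?_
  have h1 : Continuous (fun a : Fin 3 → ℝ => a k) := continuous_apply k
  have h2 : Continuous (fun a : Fin 3 → ℝ => σ k * Real.sqrt (1 - a k ^ 2)) := by fun_prop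
  have : (fun a : Fin 3 → ℝ => sheet σ a k)
      = fun a => ((a k : ℝ) : ℂ) + ((σ k * Real.sqrt (1 - a k ^ 2) : ℝ) : ℂ) * Complex.I := by
    funext a
    refine Complex.ext ?_ ?_ <;> simp [sheet]
  rw [this]
  exact (Complex.continuous_ofReal.comp h1).add
    ((Complex.continuous_ofReal.comp h2).mul continuous_const)

lemma sheet_mem {σ : Fin 3 → ℝ} (hσ : ∀ k, σ k ^ 2 = 1) {a : Fin 3 → ℝ} (ha : a ∈ Hex) :
    F0 (sheet σ a) = 0 := by
  rw [F0_eq_zero_iff]
  refine ⟨fun k => ?_, ha.2⟩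
  rw [Complex.normSq_apply]
  simp only [sheet]
  have h := ha.1 k
  have h2 : 0 ≤ 1 - a k ^ 2 := by nlinarith [h.1, h.2]
  have h3 := Real.mul_self_sqrt h2
  have h4 := hσ k
  calc a k * a k + σ k * Real.sqrt (1 - a k ^ 2) * (σ k * Real.sqrt (1 - a k ^ 2))
      = a k * a k + σ k ^ 2 * (Real.sqrt (1 - a k ^ 2) * Real.sqrt (1 - a k ^ 2)) := by ring
    _ = 1 := by rw [h3, h4]; ring

/-- In the subspace `M`, two points are joined if they lie in a common preconnected subset. -/
lemma sheet_joined {σ : Fin 3 → ℝ} (hσ : ∀ k, σ k ^ 2 = 1) {a b : Fin 3 → ℝ} (ha : a ∈ Hex)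
    (hb : b ∈ Hex) : ∃ S ⊆ {p : V3 | F0 p = 0}, sheet σ a ∈ S ∧ sheet σ b ∈ S ∧
      IsPreconnected S :=
  ⟨sheet σ '' Hex, by rintro _ ⟨c, hc, rfl⟩; exact sheet_mem hσ hc, ⟨a, ha, rfl⟩, ⟨b, hb, rfl⟩,
    Hex_convex.isPreconnected.image _ (sheet_continuous σ).continuousOn⟩

/-- Joined by a chain of preconnected sets. -/
def Jn (p q : V3) : Prop := ∃ S ⊆ {p : V3 | F0 p = 0}, p ∈ S ∧ q ∈ S ∧ IsPreconnected S

lemma Jn.trans {p q r : V3} (h1 : Jn p q) (h2 : Jn q r) : Jn p r := by
  obtain ⟨S, hS, a, b, c⟩ := h1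
  obtain ⟨T, hT, d, e, f⟩ := h2
  exact ⟨S ∪ T, Set.union_subset hS hT, Or.inl a, Or.inr e, c.union q b d f⟩

lemma Jn.symm {p q : V3} (h1 : Jn p q) : Jn q p := by
  obtain ⟨S, hS, a, b, c⟩ := h1
  exact ⟨S, hS, b, a, c⟩

/-- the point of the hexagon with `k`-th coordinate `1` -/
noncomputable def vtx (k : Fin 3) : Fin 3 → ℝ := fun l => if l = k then 1 else -1 / 2

lemma vtx_mem (k : Fin 3) : vtx k ∈ Hex := by
  refine ⟨fun l => ?_, ?_⟩
  · unfold vtx; split_ifs <;> norm_num
  · rw [Fin.sum_univ_three]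
    fin_cases k <;> simp [vtx] <;> norm_num

lemma sheet_flip (σ τ : Fin 3 → ℝ) (k : Fin 3) (h : ∀ l, l ≠ k → σ l = τ l) :
    sheet σ (vtx k) = sheet τ (vtx k) := by
  funext l
  by_cases hl : l = k
  · subst hl
    refine Complex.ext ?_ ?_ <;> simp [sheet, vtx]
  · simp only [sheet, h l hl]

lemma sq_one_of {x : ℝ} (h : x = 1 ∨ x = -1) : x ^ 2 = 1 := by
  rcases h with h | h <;> rw [h] <;> norm_num

lemma change_sign {σ : Fin 3 → ℝ} (hσ : ∀ k, σ k = 1 ∨ σ k = -1) (k : Fin 3)
    {a : Fin 3 → ℝ} (ha : a ∈ Hex) : Jn (sheet σ a) (sheet (Function.update σ k 1) a) := by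
  have hτ : ∀ l, Function.update σ k 1 l = 1 ∨ Function.update σ k 1 l = -1 := by
    intro l
    by_cases hl : l = k
    · subst hl; left; simp
    · rw [Function.update_of_ne hl]; exact hσ l
  have h1 : Jn (sheet σ a) (sheet σ (vtx k)) :=
    sheet_joined (fun l => sq_one_of (hσ l)) ha (vtx_mem k)
  have h2 : Jn (sheet (Function.update σ k 1) (vtx k)) (sheet (Function.update σ k 1) a) :=
    sheet_joined (fun l => sq_one_of (hτ l)) (vtx_mem k) ha
  rw [sheet_flip σ (Function.update σ k 1) k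
    (fun l hl => (Function.update_of_ne hl _ _).symm)] at h1
  exact h1.trans h2

lemma F0_connected : IsConnected {p : V3 | F0 p = 0} := by
  have h0 : (0 : Fin 3 → ℝ) ∈ Hex := ⟨fun k => by simp, by simp⟩
  refine ⟨⟨sheet 1 0, sheet_mem (by simp) h0⟩, ?_⟩
  -- every point is joined to `sheet 1 0`
  have key : ∀ p, F0 p = 0 → Jn p (sheet 1 0) := by
    intro p hp
    have hp' := (F0_eq_zero_iff p).1 hp
    set a : Fin 3 → ℝ := fun k => (p k).re with ha
    set σ : Fin 3 → ℝ := fun k => if 0 ≤ (p k).im then 1 else -1 with hσdef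
    have hσ : ∀ k, σ k = 1 ∨ σ k = -1 := by
      intro k; simp only [hσdef]; split_ifs <;> simp
    have haH : a ∈ Hex := by
      refine ⟨fun k => ?_, hp'.2⟩
      have := hp'.1 k
      rw [Complex.normSq_apply] at this
      constructor
      · nlinarith [mul_self_nonneg (p k).im]
      · nlinarith [mul_self_nonneg (p k).im]
    have hps : p = sheet σ a := by
      funext k
      refine Complex.ext rfl ?_
      have h := hp'.1 k
      rw [Complex.normSq_apply] at h
      have e : 1 - a k ^ 2 = (p k).im ^ 2 := by simp only [ha]; linarith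
      simp only [sheet, e, Real.sqrt_sq_eq_abs, hσdef]
      split_ifs with hi
      · rw [abs_of_nonneg hi]; ring
      · rw [abs_of_neg (not_le.1 hi)]; ring
    rw [hps]
    have s1 := change_sign hσ 0 haH
    have hσ1 : ∀ l, Function.update σ 0 1 l = 1 ∨ Function.update σ 0 1 l = -1 := by
      intro l
      by_cases hl : l = 0
      · subst hl; left; simp
      · rw [Function.update_of_ne hl]; exact hσ l
    have s2 := change_sign hσ1 1 haH
    have hσ2 : ∀ l, Function.update (Function.update σ 0 1) 1 1 l = 1 ∨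
        Function.update (Function.update σ 0 1) 1 1 l = -1 := by
      intro l
      by_cases hl : l = 1
      · subst hl; left; simp
      · rw [Function.update_of_ne hl]; exact hσ1 l
    have s3 := change_sign hσ2 2 haH
    have e3 : Function.update (Function.update (Function.update σ 0 1) 1 1) 2 1 = 1 := by
      funext l
      fin_cases l <;> simp [Function.update]
    rw [e3] at s3
    have s4 : Jn (sheet 1 a) (sheet 1 0) := sheet_joined (by simp) haH h0
    exact (s1.trans s2).trans (s3.trans s4)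
  refine isPreconnected_of_forall (sheet 1 0) ?_
  intro p hp
  obtain ⟨S, hS, h1, h2, h3⟩ := key p hp
  exact ⟨S, hS, h2, h1, h3⟩

theorem closedSurface_F0 : IsClosedSurface F0 := by
  refine ⟨inferInstance, inferInstance, ⟨F0_contDiff, F0_surj⟩, ?_, F0_compact, F0_connected⟩
  rw [Module.finrank_pi_fintype]
  simp [Complex.finrank_real_complex]

/-- a loop-evaluation lemma: integral combinations of windings vanish for null-homotopic maps -/
lemma winding_zero (c : ℝ) (d : ℝ) (φ : ℝ → ℝ) (hφ : Continuous φ) (hper : φ (2 * Real.pi) = φ 0)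
    (h : ∀ s, Circle.exp (c * s + d) = Circle.exp (φ s)) : c = 0 := by
  -- `ψ s = (φ s - (c s + d)) / (2π)` is integer valued and continuous
  set ψ : ℝ → ℝ := fun s => (φ s - (c * s + d)) / (2 * Real.pi) with hψ
  have cψ : Continuous ψ := by fun_prop
  have hint : ∀ s, ∃ n : ℤ, ψ s = n := by
    intro s
    have := h s
    rw [Circle.exp_eq_exp] at this
    obtain ⟨m, hm⟩ := this
    refine ⟨-m, ?_⟩
    simp only [hψ]
    have hpi : (2 * Real.pi) ≠ 0 := by positivity
    rw [div_eq_iff hpi]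
    push_cast
    linarith
  have hconst : ψ (2 * Real.pi) = ψ 0 := by
    have hm : Set.MapsTo ψ Set.univ (Set.range ((↑) : ℤ → ℝ)) := fun s _ => by
      obtain ⟨n, hn⟩ := hint s
      exact ⟨n, hn.symm⟩
    have hdisc : IsDiscrete (Set.range ((↑) : ℤ → ℝ)) := by
      have := Int.isClosedEmbedding_coe_real.isEmbedding
      exact ⟨this.toHomeomorph.discreteTopology⟩
    exact isPreconnected_univ.constant_of_mapsTo hdisc cψ.continuousOn hm (Set.mem_univ _)
      (Set.mem_univ _)
  simp only [hψ] at hconst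
  have hpi : (2 * Real.pi) ≠ 0 := by positivity
  rw [div_left_inj' hpi, hper] at hconst
  have : c * (2 * Real.pi) = 0 := by linarith
  exact (mul_eq_zero.1 this).resolve_right hpi

/-- coordinate functions to the circle -/
noncomputable def coordS (i : Fin 3) (p : {p : V3 // F0 p = 0}) : Circle :=
  ⟨p.1 i, by
    have := ((F0_eq_zero_iff p.1).1 p.2).1 i
    rw [Complex.normSq_eq_norm_sq] at this
    rw [Submonoid.unitSphere]
    simp only [Submonoid.mem_mk, Subsemigroup.mem_mk, mem_sphere_iff_norm, sub_zero]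
    nlinarith [norm_nonneg (p.1 i)]⟩

lemma coordS_coe (i : Fin 3) (p : {p : V3 // F0 p = 0}) : ((coordS i p : Circle) : ℂ) = p.1 i :=
  rfl

lemma coordS_continuous (i : Fin 3) : Continuous (coordS i) := by
  have h : Continuous (fun p : {p : V3 // F0 p = 0} => p.1 i) :=
    (continuous_apply i).comp continuous_subtype_val
  exact Continuous.subtype_mk h _

/-- a loop in `M` -/
noncomputable def loopM (m c : Fin 3 → ℝ) (h : ∀ s, ∑ k, Real.cos (m k * s + c k) = 0) (s : ℝ) :
    {p : V3 // F0 p = 0} :=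
  ⟨fun k => ex (m k * s + c k), crv_mem m c 0 0 h s⟩

lemma loopM_continuous (m c : Fin 3 → ℝ) (h : ∀ s, ∑ k, Real.cos (m k * s + c k) = 0) :
    Continuous (loopM m c h) := by
  refine Continuous.subtype_mk ?_ _
  exact continuous_pi fun k => (contDiff_ex _ _).continuous

lemma coordS_loopM (m c : Fin 3 → ℝ) (h : ∀ s, ∑ k, Real.cos (m k * s + c k) = 0) (s : ℝ)
    (i : Fin 3) : coordS i (loopM m c h s) = Circle.exp (m i * s + c i) := by
  apply Subtype.ext
  rw [coordS_coe, Circle.coe_exp]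
  rfl

lemma winding_rel (m : Fin 3 → ℤ) (c : Fin 3 → ℝ)
    (h : ∀ s, ∑ k, Real.cos ((m k : ℝ) * s + c k) = 0)
    (n : Fin 3 → ℤ) (φ : {p : V3 // F0 p = 0} → ℝ) (hφ : Continuous φ)
    (hx : ∀ x, ∏ i, (coordS i x) ^ (n i) = Circle.exp (φ x)) :
    ∑ i, (n i : ℝ) * m i = 0 := by
  have hper : loopM (fun k => (m k : ℝ)) c h (2 * Real.pi) = loopM (fun k => (m k : ℝ)) c h 0 := by
    apply Subtype.ext
    funext k
    simp only [loopM]
    rw [ex_eq, ex_eq]
    have : (m k : ℝ) * (2 * Real.pi) + c k = c k + m k * (2 * Real.pi) := by ring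
    rw [this, Real.cos_add_int_mul_two_pi, Real.sin_add_int_mul_two_pi]
    simp
  refine winding_zero (∑ i, (n i : ℝ) * m i) (∑ i, (n i : ℝ) * c i)
    (fun s => φ (loopM (fun k => (m k : ℝ)) c h s)) (hφ.comp (loopM_continuous _ _ _))
    (by simp only [hper]) ?_
  intro s
  rw [← hx]
  simp only [coordS_loopM]
  have : ∀ i, Circle.exp ((m i : ℝ) * s + c i) ^ (n i)
      = Circle.exp ((n i : ℝ) * ((m i : ℝ) * s + c i)) := by
    intro i
    have := Circle.exp_zsmul ((m i : ℝ) * s + c i) (n i)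
    rw [← this]
    simp only [zsmul_eq_mul]
  rw [Finset.prod_congr rfl fun i _ => this i, Fin.prod_univ_three, ← Circle.exp_add,
    ← Circle.exp_add]
  congr 1
  rw [Fin.sum_univ_three, Fin.sum_univ_three]
  ring

theorem betti_F0 : BettiOneAtLeast {p : V3 // F0 p = 0} 3 := by
  refine ⟨coordS, coordS_continuous, ?_⟩
  rintro n ⟨φ, hφ, hx⟩
  have r1 := winding_rel ![1, -1, 0] ![Real.pi, 0, Real.pi / 2]
    (by intro s; simp [Fin.sum_univ_three, Real.cos_add_pi]) n φ hφ hx
  have r2 := winding_rel ![1, 1, 0] ![Real.pi, 0, Real.pi / 2]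
    (by intro s; simp [Fin.sum_univ_three, Real.cos_add_pi]) n φ hφ hx
  have r3 := winding_rel ![0, 1, 1] ![Real.pi / 2, Real.pi, 0]
    (by intro s; simp [Fin.sum_univ_three, Real.cos_add_pi]) n φ hφ hx
  simp [Fin.sum_univ_three] at r1 r2 r3
  have n0 : (n 0 : ℝ) = 0 := by linarith
  have n1 : (n 1 : ℝ) = 0 := by linarith
  have n2 : (n 2 : ℝ) = 0 := by linarith
  funext k
  fin_cases k
  · exact_mod_cast n0
  · exact_mod_cast n1
  · exact_mod_cast n2

theorem metric_g0 : IsRiemannianMetric (timesCircle F0) g0 := by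
  refine ⟨sqForm_contDiff _ _ _, ?_, ?_⟩
  · intro p v w
    rw [g0, sqForm_apply, sqForm_apply, flatForm_apply, flatForm_apply]
    have : ∀ a b : ℂ, ip a b = ip b a := fun a b => by rw [ip_apply, ip_apply]; ring
    rw [Finset.sum_congr rfl fun k _ => this (v.1 k) (w.1 k)]
    ring
  · intro p hp v hv hne
    have hm := mem_timesCircle p hp
    rw [tangent_timesCircle_iff] at hv
    rw [g0, sqForm_apply, flatForm_apply]
    by_contra hcon
    push Not at hcon
    have hnn : ∀ k, 0 ≤ ip (v.1 k) (v.1 k) := fun k => by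
      rw [ip_apply]; exact add_nonneg (mul_self_nonneg _) (mul_self_nonneg _)
    have hs : 0 ≤ ∑ k, ip (v.1 k) (v.1 k) := Finset.sum_nonneg fun k _ => hnn k
    have hq := mul_self_nonneg ((0 : V3 × ℂ →L[ℝ] ℝ) v + B1 p v)
    have hs0 : ∑ k, ip (v.1 k) (v.1 k) = 0 := by linarith
    have hq0 : ((0 : V3 × ℂ →L[ℝ] ℝ) v + B1 p v) * ((0 : V3 × ℂ →L[ℝ] ℝ) v + B1 p v) = 0 := by
      linarith
    rw [Finset.sum_eq_zero_iff_of_nonneg fun k _ => hnn k] at hs0
    have hv1 : ∀ k, v.1 k = 0 := by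
      intro k
      have := hs0 k (Finset.mem_univ k)
      rw [ip_apply] at this
      refine Complex.ext ?_ ?_
      · have h1 : (v.1 k).re * (v.1 k).re = 0 := by
          linarith [mul_self_nonneg (v.1 k).re, mul_self_nonneg (v.1 k).im]
        exact mul_self_eq_zero.1 h1
      · have h1 : (v.1 k).im * (v.1 k).im = 0 := by
          linarith [mul_self_nonneg (v.1 k).re, mul_self_nonneg (v.1 k).im]
        exact mul_self_eq_zero.1 h1
    have hb : β p.2 v.2 = 0 := by
      have h := mul_self_eq_zero.1 hq0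
      rw [B1_apply, hv1 0] at h
      simp only [map_zero, zero_apply, zero_add, add_zero] at h
      rcases mul_eq_zero.1 h with h2 | h2
      · exact absurd h2 (by positivity)
      · exact h2
    apply hne
    refine Prod.ext (funext hv1) ?_
    refine Complex.ext ?_ ?_
    · rw [re_of_perp hm.2.2 hv.2.2, hb]; simp
    · rw [im_of_perp hm.2.2 hv.2.2, hb]; simp

end Pool.Agent.H847R2.Shear
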